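import Mathlib

/-!
# A critical branching recursion and the averaged pattern of one refinement
-/

open MeasureTheory Set Filter

namespace Q195.CSeg

/-- Survival probabilities of the critical branching process with offspring law
`(t/2, 1 - t, t/2)`. -/
noncomputable def f : ℕ → ℝ → ℝ
  | 0, _ => 1
  | n + 1, t => f n t - t / 2 * f n t ^ 2

theorem f_mem {t : ℝ} (h0 : 0 ≤ t) (h1 : t ≤ 1) (n : ℕ) : 0 < f n t ∧ f n t ≤ 1 := by
  induction n with
  | zero => simp [f]
  | succ n ih =>
    obtain ⟨a, b⟩ := ih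
    simp only [f]
    constructor
    · nlinarith [mul_nonneg h0 a.le, mul_pos a a]
    · nlinarith [mul_nonneg h0 (sq_nonneg (f n t))]

theorem f_le {t : ℝ} (h0 : 0 < t) (h1 : t ≤ 1) (n : ℕ) : f n t * (1 + n * t / 2) ≤ 1 := by
  induction n with
  | zero => simp [f]
  | succ n ih =>
    obtain ⟨a, b⟩ := f_mem h0.le h1 n
    simp only [f]
    push_cast
    set x := f n t
    have hn : (0 : ℝ) ≤ n := Nat.cast_nonneg n
    have e : (x - t / 2 * x ^ 2) * (1 + (n + 1) * t / 2) =
        (1 - t / 2 * x) * (x * (1 + n * t / 2)) + (1 - t / 2 * x) * (x * t / 2) := by ring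
    rw [e]
    have hx : 0 ≤ 1 - t / 2 * x := by nlinarith
    nlinarith [mul_le_mul_of_nonneg_left ih hx, mul_nonneg (mul_nonneg h0.le a.le)
      (mul_nonneg h0.le a.le)]

theorem f_ge {t : ℝ} (h0 : 0 ≤ t) (h1 : t ≤ 1) (n : ℕ) : 1 ≤ f n t * (1 + n * t) := by
  induction n with
  | zero => simp [f]
  | succ n ih =>
    obtain ⟨a, b⟩ := f_mem h0 h1 n
    simp only [f]
    push_cast
    set x := f n t
    have hn : (0 : ℝ) ≤ n := Nat.cast_nonneg n
    have e : (x - t / 2 * x ^ 2) * (1 + (n + 1) * t) =
        (1 - t / 2 * x) * (x * (1 + n * t)) + (1 - t / 2 * x) * (x * t) := by ring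
    rw [e]
    have hx : 0 ≤ 1 - t / 2 * x := by nlinarith
    have h3 : 0 ≤ t * x := mul_nonneg h0 a.le
    have h4 : t * x ≤ 1 := by nlinarith
    nlinarith [mul_le_mul_of_nonneg_left ih hx]

theorem f_continuous (n : ℕ) : Continuous (f n) := by
  induction n with
  | zero => exact continuous_const
  | succ n ih =>
    have : f (n + 1) = fun t => f n t - t / 2 * f n t ^ 2 := rfl
    rw [this]
    fun_prop

theorem prod_one_sub (q : ℝ) (E : ℕ → ℝ) (hE : ∀ i j, i ≠ j → E i * E j = 0) (N : ℕ) :
    ∏ j ∈ Finset.range N, (1 - q * E j) = 1 - q * ∑ j ∈ Finset.range N, E j := by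
  induction N with
  | zero => simp
  | succ N ih =>
    rw [Finset.prod_range_succ, ih, Finset.sum_range_succ]
    have : (∑ j ∈ Finset.range N, E j) * E N = 0 := by
      rw [Finset.sum_mul]
      exact Finset.sum_eq_zero fun j hj => hE j N (Finset.mem_range.1 hj).ne
    linear_combination q ^ 2 * this

/-- Indicator of an interval. -/
noncomputable def ind (α β x : ℝ) : ℝ := if α < x ∧ x ≤ β then 1 else 0

theorem ind_eq (α β : ℝ) : ind α β = (Ioc α β).indicator 1 := by
  funext x
  by_cases h : α < x ∧ x ≤ β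
  · rw [indicator_of_mem (show x ∈ Ioc α β from h)]
    simp [ind, h]
  · rw [indicator_of_notMem (show x ∉ Ioc α β from h)]
    simp [ind, h]

theorem ind_integrable (α β a b : ℝ) : IntervalIntegrable (ind α β) volume a b := by
  rw [ind_eq]
  have : Integrable ((Ioc α β).indicator (1 : ℝ → ℝ)) := by
    rw [integrable_indicator_iff measurableSet_Ioc]
    exact integrableOn_const (by simp)
  exact this.intervalIntegrable

theorem unfold_integral (G : ℝ → ℝ) (hG : ∀ a b, IntervalIntegrable G volume a b) (N : ℕ) :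
    ∫ θ in (0 : ℝ)..1, ∑ j ∈ Finset.range N, G (θ + j) = ∫ ψ in (0 : ℝ)..N, G ψ := by
  have h1 : ∀ j : ℕ, IntervalIntegrable (fun θ => G (θ + j)) volume 0 1 := fun j => by
    have := (hG (j : ℝ) (j + 1)).comp_add_right (j : ℝ)
    simpa using this
  rw [intervalIntegral.integral_finsetSum fun j _ => h1 j]
  have h2 := intervalIntegral.sum_integral_adjacent_intervals (f := G) (μ := volume)
    (a := fun k : ℕ => (k : ℝ)) (n := N) fun k _ => hG _ _
  simp only [Nat.cast_zero] at h2
  rw [← h2]
  refine Finset.sum_congr rfl fun j _ => ?_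
  rw [intervalIntegral.integral_comp_add_right (fun x => G x)]
  push_cast
  congr 1 <;> ring

theorem ind_integral {α β N : ℝ} (h0 : 0 ≤ α) (h1 : α ≤ β) (h2 : β ≤ N) :
    ∫ ψ in (0 : ℝ)..N, ind α β ψ = β - α := by
  rw [intervalIntegral.integral_of_le (by linarith), ind_eq, integral_indicator measurableSet_Ioc,
    Measure.restrict_restrict measurableSet_Ioc,
    inter_eq_left.2 (Ioc_subset_Ioc h0 h2)]
  simp [h1]

/-- The average over the phase. -/
theorem average {a t q : ℝ} {N : ℕ} (ha : 1 ≤ a) (haN : a ≤ N) (h0 : 0 ≤ t) (h1 : t ≤ 1) :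
    ∫ θ in (0 : ℝ)..1, (∏ j ∈ Finset.range N, (1 - q * ind (a - 1 / 2) a (θ + j))) *
      (∏ j ∈ Finset.range N, (1 - q * ind (a + t / 2 - 1) (a + t / 2 - 1 / 2) (θ + j)))
      = 1 - q + t / 2 * q ^ 2 := by
  have hne : ∀ (i j : ℕ), i ≠ j → ∀ θ : ℝ, (1 : ℝ) ≤ |(θ + i) - (θ + j)| := by
    intro i j hij θ
    have : (θ + i) - (θ + j) = (((i : ℤ) - (j : ℤ) : ℤ) : ℝ) := by push_cast; ring
    rw [this, ← Int.cast_abs]
    have h2 : (i : ℤ) - (j : ℤ) ≠ 0 := sub_ne_zero.2 (by exact_mod_cast hij)
    have h3 := Int.one_le_abs h2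
    exact_mod_cast h3
  have hprod : ∀ θ : ℝ, (∏ j ∈ Finset.range N, (1 - q * ind (a - 1 / 2) a (θ + j))) *
      (∏ j ∈ Finset.range N, (1 - q * ind (a + t / 2 - 1) (a + t / 2 - 1 / 2) (θ + j))) =
      ((1 - q * ∑ j ∈ Finset.range N, ind (a - 1 / 2) a (θ + j)) -
        q * ∑ j ∈ Finset.range N, ind (a + t / 2 - 1) (a + t / 2 - 1 / 2) (θ + j)) +
        q ^ 2 * ∑ j ∈ Finset.range N, ind (a - 1 / 2) (a - 1 / 2 + t / 2) (θ + j) := by
    intro θ
    rw [prod_one_sub, prod_one_sub]
    · have key : (∑ j ∈ Finset.range N, ind (a - 1 / 2) a (θ + j)) *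
          (∑ j ∈ Finset.range N, ind (a + t / 2 - 1) (a + t / 2 - 1 / 2) (θ + j)) =
          ∑ j ∈ Finset.range N, ind (a - 1 / 2) (a - 1 / 2 + t / 2) (θ + j) := by
        rw [Finset.sum_mul_sum]
        refine Finset.sum_congr rfl fun i hi => ?_
        rw [Finset.sum_eq_single i]
        · unfold ind
          by_cases h3 : a - 1 / 2 < θ + i ∧ θ + i ≤ a - 1 / 2 + t / 2
          · rw [if_pos h3, if_pos ⟨h3.1, by linarith [h3.2]⟩,
              if_pos ⟨by linarith [h3.1], by linarith [h3.2]⟩]
            norm_num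
          · rw [if_neg h3]
            by_cases h4 : a - 1 / 2 < θ + i ∧ θ + i ≤ a
            · rw [if_neg (c := a + t / 2 - 1 < θ + i ∧ θ + i ≤ a + t / 2 - 1 / 2)]
              · simp
              · intro h5
                exact h3 ⟨h4.1, by linarith [h5.2]⟩
            · rw [if_neg h4]; simp
        · intro j _ hj
          have h6 := hne i j (Ne.symm hj) θ
          unfold ind
          by_cases h4 : a - 1 / 2 < θ + i ∧ θ + i ≤ a
          · rw [if_neg (c := a + t / 2 - 1 < θ + j ∧ θ + j ≤ a + t / 2 - 1 / 2)]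
            · simp
            · intro h5
              rcases le_abs.1 h6 with h7 | h7 <;> linarith [h4.1, h4.2, h5.1, h5.2]
          · rw [if_neg h4]; simp
        · intro h; exact absurd hi h
      linear_combination q ^ 2 * key
    all_goals
      intro i j hij
      have h6 := hne i j hij θ
      unfold ind
      split_ifs with h4 h5
      · exfalso
        rcases le_abs.1 h6 with h7 | h7 <;> linarith [h4.1, h4.2, h5.1, h5.2]
      all_goals simp
  simp only [hprod]
  have hs : ∀ α β : ℝ, IntervalIntegrable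
      (fun θ => ∑ j ∈ Finset.range N, ind α β (θ + j)) volume 0 1 := by
    intro α β
    have h7 : IntervalIntegrable (∑ j ∈ Finset.range N, fun θ : ℝ => ind α β (θ + j))
        volume 0 1 := by
      refine IntervalIntegrable.sum _ fun j _ => ?_
      have := (ind_integrable α β (j : ℝ) (j + 1)).comp_add_right (j : ℝ)
      simpa using this
    convert h7 using 1
    funext θ
    simp
  rw [intervalIntegral.integral_add, intervalIntegral.integral_sub, intervalIntegral.integral_sub,
    intervalIntegral.integral_const_mul, intervalIntegral.integral_const_mul,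
    intervalIntegral.integral_const_mul, unfold_integral _ (ind_integrable _ _),
    unfold_integral _ (ind_integrable _ _), unfold_integral _ (ind_integrable _ _),
    ind_integral, ind_integral, ind_integral]
  · simp
    ring
  all_goals first | linarith | skip
  · exact intervalIntegrable_const
  · exact (hs _ _).const_mul q
  · exact intervalIntegrable_const.sub ((hs _ _).const_mul q)
  · exact (hs _ _).const_mul q
  · exact (intervalIntegrable_const.sub ((hs _ _).const_mul q)).sub ((hs _ _).const_mul q)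
  · exact (hs _ _).const_mul (q ^ 2)

end Q195.CSeg
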