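import Pool.Agent.Q195.CSeg.Refine

/-!
# Superposition of many foci
-/

open MeasureTheory Set Filter Topology

namespace Q195.CSeg

/-- The set covered by the strips of a list. -/
def cov (l : List Strip) : Set (ℝ × ℝ) := {p | ∃ Q ∈ l, p ∈ reg Q}

/-- The indicator of the set that is not covered. -/
noncomputable def uc (l : List Strip) : ℝ × ℝ → ℝ := (cov l)ᶜ.indicator 1

theorem reg_measurable (P : Strip) : MeasurableSet (reg P) := by
  unfold reg lo
  have h2 : MeasurableSet {p : ℝ × ℝ | sl P.F * p.1 + P.b ≤ p.2} :=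
    measurableSet_le (by fun_prop) (by fun_prop)
  have h3 : MeasurableSet {p : ℝ × ℝ | p.2 < sl P.F * p.1 + P.b + P.w} :=
    measurableSet_lt (by fun_prop) (by fun_prop)
  exact h2.inter h3

theorem cov_nil : cov [] = ∅ := by ext p; simp [cov]

theorem cov_append (l l' : List Strip) : cov (l ++ l') = cov l ∪ cov l' := by
  ext p; simp [cov, or_and_right, exists_or]

theorem cov_cons (P : Strip) (l : List Strip) : cov (P :: l) = reg P ∪ cov l := by
  ext p; simp [cov]

theorem cov_measurable (l : List Strip) : MeasurableSet (cov l) := by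
  induction l with
  | nil => rw [cov_nil]; exact MeasurableSet.empty
  | cons P l ih => rw [cov_cons]; exact (reg_measurable P).union ih

theorem uc_measurable (l : List Strip) : Measurable (uc l) :=
  measurable_one.indicator (cov_measurable l).compl

theorem uc_mem (l : List Strip) (p : ℝ × ℝ) : 0 ≤ uc l p ∧ uc l p ≤ 1 := by
  unfold uc
  by_cases h : p ∈ (cov l)ᶜ
  · rw [indicator_of_mem h]; simp
  · rw [indicator_of_notMem h]; simp

theorem uc_append (l l' : List Strip) (p : ℝ × ℝ) : uc (l ++ l') p = uc l p * uc l' p := by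
  unfold uc
  rw [cov_append, compl_union]
  by_cases h : p ∈ (cov l)ᶜ
  · by_cases h' : p ∈ (cov l')ᶜ
    · rw [indicator_of_mem h, indicator_of_mem h',
        indicator_of_mem (show p ∈ (cov l)ᶜ ∩ (cov l')ᶜ from ⟨h, h'⟩)]; simp
    · rw [indicator_of_notMem h', indicator_of_notMem (fun h2 => h' h2.2)]; simp
  · rw [indicator_of_notMem h, indicator_of_notMem (fun h2 => h h2.1)]; simp

theorem U_zero_eq (c : ℝ) (l : List Strip) (p : ℝ × ℝ) (h : p ∉ cov l) : U c 0 l p = 1 := by
  induction l with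
  | nil => simp [U]
  | cons P l ih =>
    rw [cov_cons] at h
    rw [U_cons, ih fun h2 => h (Or.inr h2)]
    have : ic c P p = 0 := by
      unfold ic
      rw [if_neg]
      intro h2
      exact h (Or.inl h2.2)
    rw [this]
    simp

theorem U_zero_eq' (c : ℝ) (l : List Strip) (p : ℝ × ℝ) (hp : p.1 ≤ c) (h : p ∈ cov l) :
    U c 0 l p = 0 := by
  induction l with
  | nil => rw [cov_nil] at h; exact absurd h (notMem_empty p)
  | cons P l ih =>
    rw [cov_cons] at h
    rw [U_cons]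
    rcases h with h | h
    · have : ic c P p = 1 := by
        unfold ic
        rw [if_pos ⟨hp, h⟩]
      rw [this]
      simp [f]
    · rw [ih h]; simp

theorem uc_le {c : ℝ} (hc : c ∈ Icc (6 / 10 : ℝ) (7 / 10)) (l : List Strip) {p : ℝ × ℝ}
    (hp : p.1 ∈ D) : uc l p ≤ U c 0 l p := by
  unfold uc
  by_cases h : p ∈ cov l
  · rw [indicator_of_notMem (by simpa using h)]
    exact (U_mem hc hp 0 l).1
  · rw [indicator_of_mem (by simpa using h), U_zero_eq c l p h]
    simp

theorem uc_eq {c : ℝ} (l : List Strip) {p : ℝ × ℝ} (hp : p.1 ≤ c) : uc l p = U c 0 l p := by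
  unfold uc
  by_cases h : p ∈ cov l
  · rw [indicator_of_notMem (by simpa using h), U_zero_eq' c l p hp h]
  · rw [indicator_of_mem (by simpa using h), U_zero_eq c l p h]
    simp

/-- The product over the foci. -/
noncomputable def V (n : ℕ) (P : Strip) (cs : List ℝ) (p : ℝ × ℝ) : ℝ :=
  (cs.map fun c => 1 - f (n + 1) ((c - p.1) / 2) * ic c P p).prod

theorem V_cons (n : ℕ) (P : Strip) (c : ℝ) (cs : List ℝ) (p : ℝ × ℝ) :
    V n P (c :: cs) p = (1 - f (n + 1) ((c - p.1) / 2) * ic c P p) * V n P cs p := by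
  simp [V]

theorem V_nil (n : ℕ) (P : Strip) (p : ℝ × ℝ) : V n P [] p = 1 := by simp [V]

theorem V_measurable (n : ℕ) (P : Strip) (cs : List ℝ) : Measurable (V n P cs) := by
  induction cs with
  | nil =>
    have : V n P [] = fun _ => 1 := funext fun p => V_nil n P p
    rw [this]; exact measurable_const
  | cons c cs ih =>
    have : V n P (c :: cs) = fun p => (1 - f (n + 1) ((c - p.1) / 2) * ic c P p) * V n P cs p :=
      funext fun p => V_cons n P c cs p
    rw [this]
    exact (measurable_const.sub ((fc_measurable c (n + 1)).mul (ic_measurable c P))).mul ih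

theorem V_mem (n : ℕ) (P : Strip) {cs : List ℝ} (hcs : ∀ c ∈ cs, c ∈ Icc (6 / 10 : ℝ) (7 / 10))
    {p : ℝ × ℝ} (hp : p.1 ∈ D) : 0 ≤ V n P cs p ∧ V n P cs p ≤ 1 := by
  induction cs with
  | nil => simp [V]
  | cons c cs ih =>
    rw [V_cons]
    have h := factor_mem (hcs c (by simp)) hp (n + 1) P
    have h2 := ih fun c' hc' => hcs c' (by simp [hc'])
    exact ⟨mul_nonneg h.1 h2.1, mul_le_one₀ h.2 h2.1 h2.2⟩

section
variable {ν : Measure (ℝ × ℝ)} [IsFiniteMeasure ν] (hν : ν ≪ volume)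
  (hD : ∀ᵐ p ∂ν, p.1 ∈ D) {ω : ℝ × ℝ → ℝ} (hω : Measurable ω) (hω1 : ∀ p, |ω p| ≤ 1)
  (hsgn : ∀ p, 0 ≤ ω p ∨ p.1 ≤ 6 / 10)
include hν hD hω hω1 hsgn

theorem foci (n m : ℕ) {η : ℝ} (hη : 0 < η) (P : Strip) (cs : List ℝ) :
    (∀ c ∈ cs, c ∈ Icc (6 / 10 : ℝ) (7 / 10)) → ∀ {g : ℝ × ℝ → ℝ}, Measurable g →
    (∀ p, p.1 ∈ D → 0 ≤ g p ∧ g p ≤ 1) → ∀ {ε : ℝ}, 0 < ε →
    ∃ l' : List Strip, (∀ Q ∈ l', Desc m Q P ∧ 0 < Q.w ∧ Q.w ≤ η) ∧
      ∫ p, ω p * (g p * uc l' p) ∂ν ≤ ∫ p, ω p * (g p * V n P cs p) ∂ν + ε := by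
  induction cs with
  | nil =>
    intro _ g _ _ ε hε
    refine ⟨[], by simp, ?_⟩
    have e : uc [] = fun _ => 1 := by
      unfold uc
      rw [cov_nil]
      simp
      rfl
    simp only [V_nil, e]
    linarith
  | cons c cs ih =>
    intro hcs g hg hg1 ε hε
    have hc := hcs c (by simp)
    have hcs' : ∀ c ∈ cs, c ∈ Icc (6 / 10 : ℝ) (7 / 10) := fun c' hc' => hcs c' (by simp [hc'])
    have hVm := V_measurable n P cs
    have hgV : ∀ p, p.1 ∈ D → 0 ≤ (g * V n P cs) p ∧ (g * V n P cs) p ≤ 1 := fun p hp => by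
      have h1 := hg1 p hp
      have h2 := V_mem n P hcs' hp
      exact ⟨mul_nonneg h1.1 h2.1, mul_le_one₀ h1.2 h2.1 h2.2⟩
    obtain ⟨l1, a1, a2⟩ := full' hν hD hω hω1 hc m n hη P (hg.mul hVm) hgV (half_pos hε)
    have hgu : ∀ p, p.1 ∈ D → 0 ≤ (g * uc l1) p ∧ (g * uc l1) p ≤ 1 := fun p hp => by
      have h1 := hg1 p hp
      have h2 := uc_mem l1 p
      exact ⟨mul_nonneg h1.1 h2.1, mul_le_one₀ h1.2 h2.1 h2.2⟩
    obtain ⟨l2, b1, b2⟩ := ih hcs' (hg.mul (uc_measurable l1)) hgu (half_pos hε)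
    refine ⟨l1 ++ l2, fun Q hQ => ?_, ?_⟩
    · rcases List.mem_append.1 hQ with h | h
      · exact a1 Q h
      · exact b1 Q h
    · have hint : ∀ {u : ℝ × ℝ → ℝ}, Measurable u → (∀ p, p.1 ∈ D → 0 ≤ u p ∧ u p ≤ 1) →
          Integrable (fun p => ω p * u p) ν := by
        intro u hu hu1
        refine Integrable.of_bound (C := 1) (hω.mul hu).aestronglyMeasurable ?_
        filter_upwards [hD] with p hp
        rw [norm_mul, Real.norm_eq_abs, Real.norm_eq_abs, abs_of_nonneg (hu1 p hp).1]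
        exact mul_le_one₀ (hω1 p) (hu1 p hp).1 (hu1 p hp).2
      have hconv : ∫ p, ω p * ((g * V n P cs) p * uc l1 p) ∂ν ≤
          ∫ p, ω p * ((g * V n P cs) p * U c 0 l1 p) ∂ν := by
        refine integral_mono_ae ?_ ?_ ?_
        · refine hint (((hg.mul hVm)).mul (uc_measurable l1)) fun p hp => ?_
          have h1 := hgV p hp
          have h2 := uc_mem l1 p
          exact ⟨mul_nonneg h1.1 h2.1, mul_le_one₀ h1.2 h2.1 h2.2⟩
        · refine hint (((hg.mul hVm)).mul (U_measurable c 0 l1)) fun p hp => ?_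
          have h1 := hgV p hp
          have h2 := U_mem hc hp 0 l1
          exact ⟨mul_nonneg h1.1 h2.1, mul_le_one₀ h1.2 h2.1 h2.2⟩
        · filter_upwards [hD] with p hp
          rcases hsgn p with h | h
          · exact mul_le_mul_of_nonneg_left (mul_le_mul_of_nonneg_left (uc_le hc l1 hp)
              (hgV p hp).1) h
          · rw [uc_eq (c := c) l1 (h.trans hc.1)]
      simp only [uc_append, V_cons]
      have e1 : ∀ p, ω p * (g p * (uc l1 p * uc l2 p)) = ω p * ((g * uc l1) p * uc l2 p) :=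
        fun p => by simp only [Pi.mul_apply]; ring
      have e2 : ∀ p, ω p * ((g * uc l1) p * V n P cs p) =
          ω p * ((g * V n P cs) p * uc l1 p) := fun p => by
        simp only [Pi.mul_apply]; ring
      have e3 : ∀ p, ω p * (g p * ((1 - f (n + 1) ((c - p.1) / 2) * ic c P p) * V n P cs p)) =
          ω p * ((g * V n P cs) p * (1 - f (n + 1) ((c - p.1) / 2) * ic c P p)) := fun p => by
        simp only [Pi.mul_apply]; ring
      simp only [e1, e3]
      simp only [e2] at b2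
      linarith
end

theorem prod_le_inv (a : ℕ → ℝ) (ha : ∀ j, 0 ≤ a j ∧ a j ≤ 1) (N : ℕ) :
    (∏ j ∈ Finset.range N, (1 - a j)) * (1 + ∑ j ∈ Finset.range N, a j) ≤ 1 := by
  induction N with
  | zero => simp
  | succ N ih =>
    rw [Finset.prod_range_succ, Finset.sum_range_succ]
    have hp : 0 ≤ ∏ j ∈ Finset.range N, (1 - a j) :=
      Finset.prod_nonneg fun j _ => by linarith [(ha j).2]
    have hs : 0 ≤ ∑ j ∈ Finset.range N, a j := Finset.sum_nonneg fun j _ => (ha j).1
    set X := ∏ j ∈ Finset.range N, (1 - a j)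
    set S := ∑ j ∈ Finset.range N, a j
    have h := ha N
    nlinarith [mul_nonneg hp h.1, mul_nonneg (mul_nonneg hp h.1) hs,
      mul_nonneg (mul_nonneg hp h.1) h.1]

theorem one_sub_sum_le (a : ℕ → ℝ) (ha : ∀ j, 0 ≤ a j ∧ a j ≤ 1) (N : ℕ) :
    1 - ∑ j ∈ Finset.range N, a j ≤ ∏ j ∈ Finset.range N, (1 - a j) := by
  induction N with
  | zero => simp
  | succ N ih =>
    rw [Finset.prod_range_succ, Finset.sum_range_succ]
    have hp : ∏ j ∈ Finset.range N, (1 - a j) ≤ 1 :=
      Finset.prod_le_one (fun j _ => by linarith [(ha j).2]) fun j _ => by linarith [(ha j).1]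
    have h := ha N
    nlinarith

/-- Choice of the foci. -/
theorem exists_foci {δ : ℝ} (hδ : 0 < δ) : ∃ (n : ℕ) (cs : List ℝ),
    (∀ c ∈ cs, c ∈ Icc (6 / 10 : ℝ) (7 / 10)) ∧
    (∀ x ∈ Icc (6 / 10 : ℝ) (65 / 100),
      (cs.map fun c => 1 - f (n + 1) ((c - x) / 2) * (if x ≤ c then 1 else 0)).prod ≤ δ) ∧
    ∀ x ∈ Icc (-1 / 2 : ℝ) (1 / 2),
      1 - δ ≤ (cs.map fun c => 1 - f (n + 1) ((c - x) / 2) * (if x ≤ c then 1 else 0)).prod := by
  obtain ⟨r, hr⟩ := exists_nat_gt (40 / δ)
  have hr0 : (0 : ℝ) < r := lt_trans (by positivity) hr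
  have hr1 : (1 : ℝ) ≤ r := by
    have : 0 < r := by exact_mod_cast hr0
    exact_mod_cast this
  have hH := Real.tendsto_sum_range_one_div_nat_succ_atTop
  obtain ⟨M, hM0, hM⟩ := ((eventually_ge_atTop 1).and
    (hH.eventually_ge_atTop (2 * r * (1 / δ)))).exists
  have hM1 : (1 : ℝ) ≤ M := by exact_mod_cast hM0
  set J : ℕ := 2 * M with hJ
  have hJr : (J : ℝ) = 2 * M := by rw [hJ]; push_cast; ring
  have hJ0 : (0 : ℝ) < J := by rw [hJr]; linarith
  have hNpos : 0 < J * r := by
    have h1 : 0 < J := by omega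
    have h2 : 0 < r := by exact_mod_cast hr0
    positivity
  refine ⟨J * r - 1, (List.range J).map fun j : ℕ => (6 / 10 : ℝ) + (j + 1) / (10 * J),
    ?_, ?_, ?_⟩
  · intro c hc
    simp only [List.mem_map, List.mem_range] at hc
    obtain ⟨j, hj, rfl⟩ := hc
    have hj1 : (j : ℝ) + 1 ≤ J := by exact_mod_cast hj
    have h1 : ((j : ℝ) + 1) / (10 * J) ≤ 1 / 10 := by
      rw [div_le_div_iff₀ (by positivity) (by norm_num)]
      linarith
    have h2 : 0 ≤ ((j : ℝ) + 1) / (10 * J) := by positivity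
    constructor <;> linarith
  all_goals
    intro x hx
    rw [List.map_map, show J * r - 1 + 1 = J * r by omega]
    have e : ((List.range J).map ((fun c => 1 - f (J * r) ((c - x) / 2) *
      (if x ≤ c then 1 else 0)) ∘ fun j : ℕ => (6 / 10 : ℝ) + (j + 1) / (10 * J))).prod =
      ∏ j ∈ Finset.range J, (1 - f (J * r) (((6 / 10 : ℝ) + (j + 1) / (10 * J) - x) / 2) *
        (if x ≤ (6 / 10 : ℝ) + (j + 1) / (10 * J) then 1 else 0)) := list_prod_range _ _
    rw [e]
  · -- the right-hand region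
    set a : ℕ → ℝ := fun j => if j < J then
      f (J * r) (((6 / 10 : ℝ) + (j + 1) / (10 * J) - x) / 2) *
        (if x ≤ (6 / 10 : ℝ) + (j + 1) / (10 * J) then 1 else 0) else 0 with ha
    have hcj : ∀ j < J, ((j : ℝ) + 1) / (10 * J) ≤ 1 / 10 := by
      intro j hj
      have hj1 : (j : ℝ) + 1 ≤ J := by exact_mod_cast hj
      rw [div_le_div_iff₀ (by positivity) (by norm_num)]
      linarith
    have ha1 : ∀ j, 0 ≤ a j ∧ a j ≤ 1 := by
      intro j
      simp only [ha]
      split_ifs with h1 h2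
      · obtain ⟨b1, b2⟩ := f_mem (t := ((6 / 10 : ℝ) + (j + 1) / (10 * J) - x) / 2)
          (by linarith) (by linarith [hcj j h1, hx.1]) (J * r)
        constructor <;> linarith
      · simp
      · simp
    have e2 : ∏ j ∈ Finset.range J, (1 - f (J * r) (((6 / 10 : ℝ) + (j + 1) / (10 * J) - x) / 2) *
        (if x ≤ (6 / 10 : ℝ) + (j + 1) / (10 * J) then 1 else 0)) =
        ∏ j ∈ Finset.range J, (1 - a j) := by
      refine Finset.prod_congr rfl fun j hj => ?_
      simp only [ha]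
      rw [if_pos (Finset.mem_range.1 hj)]
    rw [e2]
    have hprod := prod_le_inv a ha1 J
    have hsum : 1 / δ ≤ ∑ j ∈ Finset.range J, a j := by
      set j₀ : ℕ := ⌈10 * (J : ℝ) * (x - 6 / 10)⌉₊ with hj₀
      have hj₀1 : 10 * (J : ℝ) * (x - 6 / 10) ≤ j₀ := Nat.le_ceil _
      have hj₀2 : (j₀ : ℝ) < 10 * (J : ℝ) * (x - 6 / 10) + 1 := by
        refine Nat.ceil_lt_add_one ?_
        have : 0 ≤ x - 6 / 10 := by linarith [hx.1]
        positivity
      have hj₀3 : j₀ ≤ M := by
        have : (j₀ : ℝ) ≤ M := by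
          rw [hj₀]
          have h3 : 10 * (J : ℝ) * (x - 6 / 10) ≤ (M : ℝ) := by
            rw [hJr]; nlinarith [hx.2]
          exact_mod_cast Nat.ceil_le.2 h3
        exact_mod_cast this
      have hterm : ∀ i < M, 1 / (2 * r) * (1 / ((i : ℝ) + 1)) ≤ a (j₀ + i) := by
        intro i hi
        have hlt : j₀ + i < J := by omega
        have e3 : ((6 / 10 : ℝ) + (((j₀ + i : ℕ) : ℝ) + 1) / (10 * J) - x) =
            (((j₀ : ℝ) + i + 1) - 10 * J * (x - 6 / 10)) / (10 * J) := by
          push_cast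
          field_simp
          ring
        have h4 : x ≤ (6 / 10 : ℝ) + (((j₀ + i : ℕ) : ℝ) + 1) / (10 * J) := by
          have : 0 ≤ (6 / 10 : ℝ) + (((j₀ + i : ℕ) : ℝ) + 1) / (10 * J) - x := by
            rw [e3]
            have hi0 : (0 : ℝ) ≤ i := Nat.cast_nonneg i
            exact div_nonneg (by linarith) (by positivity)
          linarith
        simp only [ha]
        rw [if_pos hlt, if_pos h4, mul_one]
        set t : ℝ := ((6 / 10 : ℝ) + (((j₀ + i : ℕ) : ℝ) + 1) / (10 * J) - x) / 2 with ht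
        have ht0 : 0 ≤ t := by rw [ht]; linarith
        have ht1 : t ≤ 1 := by rw [ht]; linarith [hcj (j₀ + i) hlt, hx.1]
        have hf := f_ge ht0 ht1 (J * r)
        have hfm := f_mem ht0 ht1 (J * r)
        have htb : (J * r : ℕ) * t ≤ r * ((i : ℝ) + 2) / 20 := by
          rw [ht, e3]
          push_cast
          have h5 : ((j₀ : ℝ) + i + 1) - 10 * J * (x - 6 / 10) ≤ i + 2 := by linarith
          have h6 : (J : ℝ) * r * ((((j₀ : ℝ) + i + 1) - 10 * J * (x - 6 / 10)) / (10 * J) / 2)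
              = r * (((j₀ : ℝ) + i + 1) - 10 * J * (x - 6 / 10)) / 20 := by
            field_simp
            ring
          rw [h6]
          have := mul_le_mul_of_nonneg_left h5 hr0.le
          linarith
        have hi0 : (0 : ℝ) ≤ i := Nat.cast_nonneg i
        have h7 : 1 + (J * r : ℕ) * t ≤ 2 * r * ((i : ℝ) + 1) := by
          nlinarith [mul_nonneg hr0.le hi0]
        have h8 : (1 : ℝ) / (2 * r) * (1 / ((i : ℝ) + 1)) = 1 / (2 * r * ((i : ℝ) + 1)) := by
          field_simp
        rw [h8, div_le_iff₀ (by positivity)]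
        nlinarith [hfm.1]
      have h9 : ∑ i ∈ Finset.range M, a (j₀ + i) ≤ ∑ j ∈ Finset.range J, a j := by
        have h10 : ∑ i ∈ Finset.range M, a (j₀ + i) = ∑ j ∈ Finset.Ico j₀ (j₀ + M), a j := by
          rw [Finset.sum_Ico_eq_sum_range]
          simp
        rw [h10]
        refine Finset.sum_le_sum_of_subset_of_nonneg ?_ fun j _ _ => (ha1 j).1
        intro j hj
        rw [Finset.mem_Ico] at hj
        rw [Finset.mem_range]
        omega
      refine le_trans ?_ h9
      refine le_trans ?_ (Finset.sum_le_sum fun i hi => hterm i (Finset.mem_range.1 hi))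
      rw [← Finset.mul_sum]
      have h11 : 1 / (2 * r) * (2 * r * (1 / δ)) = 1 / δ := by field_simp
      rw [← h11]
      exact mul_le_mul_of_nonneg_left hM (by positivity)
    have hp : 0 ≤ ∏ j ∈ Finset.range J, (1 - a j) :=
      Finset.prod_nonneg fun j _ => by linarith [(ha1 j).2]
    set X := ∏ j ∈ Finset.range J, (1 - a j)
    have h12 : X * (1 / δ) ≤ 1 := by nlinarith
    rw [mul_one_div, div_le_iff₀ hδ] at h12
    linarith
  · -- the left-hand region
    set a : ℕ → ℝ := fun j => if j < J then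
      f (J * r) (((6 / 10 : ℝ) + (j + 1) / (10 * J) - x) / 2) *
        (if x ≤ (6 / 10 : ℝ) + (j + 1) / (10 * J) then 1 else 0) else 0 with ha
    have hcj : ∀ j < J, ((j : ℝ) + 1) / (10 * J) ≤ 1 / 10 := by
      intro j hj
      have hj1 : (j : ℝ) + 1 ≤ J := by exact_mod_cast hj
      rw [div_le_div_iff₀ (by positivity) (by norm_num)]
      linarith
    have hcj0 : ∀ j : ℕ, 0 ≤ ((j : ℝ) + 1) / (10 * J) := fun j => by positivity
    have hNr : (0 : ℝ) < (J * r : ℕ) := by exact_mod_cast hNpos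
    have ha1 : ∀ j, 0 ≤ a j ∧ a j ≤ 40 / (J * r : ℕ) ∧ a j ≤ 1 := by
      intro j
      simp only [ha]
      split_ifs with h1 h2
      · have ht0 : 1 / 20 ≤ ((6 / 10 : ℝ) + (j + 1) / (10 * J) - x) / 2 := by
          linarith [hcj0 j, hx.2]
        have ht1 : ((6 / 10 : ℝ) + (j + 1) / (10 * J) - x) / 2 ≤ 1 := by
          linarith [hcj j h1, hx.1]
        obtain ⟨b1, b2⟩ := f_mem (by linarith) ht1 (J * r)
        have b3 := f_le (by linarith) ht1 (J * r)
        refine ⟨by linarith, ?_, by linarith⟩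
        rw [mul_one, le_div_iff₀ hNr]
        set t := ((6 / 10 : ℝ) + (j + 1) / (10 * J) - x) / 2
        nlinarith [mul_pos b1 hNr]
      · refine ⟨by simp, ?_, by simp⟩
        rw [mul_zero]; positivity
      · refine ⟨le_rfl, ?_, by simp⟩
        positivity
    have e2 : ∏ j ∈ Finset.range J, (1 - f (J * r) (((6 / 10 : ℝ) + (j + 1) / (10 * J) - x) / 2) *
        (if x ≤ (6 / 10 : ℝ) + (j + 1) / (10 * J) then 1 else 0)) =
        ∏ j ∈ Finset.range J, (1 - a j) := by
      refine Finset.prod_congr rfl fun j hj => ?_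
      simp only [ha]
      rw [if_pos (Finset.mem_range.1 hj)]
    rw [e2]
    refine le_trans ?_ (one_sub_sum_le a (fun j => ⟨(ha1 j).1, (ha1 j).2.2⟩) J)
    have hsum : ∑ j ∈ Finset.range J, a j ≤ J * (40 / (J * r : ℕ)) := by
      refine (Finset.sum_le_sum fun j _ => (ha1 j).2.1).trans ?_
      simp
    have e3 : (J : ℝ) * (40 / (J * r : ℕ)) = 40 / r := by
      push_cast
      field_simp
    have h13 : 40 / (r : ℝ) ≤ δ := by
      rw [div_le_iff₀ hr0]
      rw [div_lt_iff₀ hδ] at hr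
      linarith
    linarith

end Q195.CSeg
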