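import Pool.Agent.Q195.CSeg.Foci

/-!
# The key lemma: thin on the left, almost full on the right
-/

open MeasureTheory Set Filter Topology

namespace Q195.CSeg

theorem slab (Q : Strip) {α β : ℝ} (hαβ : α ≤ β) :
    volume {p : ℝ × ℝ | p.1 ∈ D ∧ lo Q p.1 + α ≤ p.2 ∧ p.2 ≤ lo Q p.1 + β} ≤
      ENNReal.ofReal (6 / 5 * (β - α)) := by
  have hm : MeasurableSet {p : ℝ × ℝ | p.1 ∈ D ∧ lo Q p.1 + α ≤ p.2 ∧ p.2 ≤ lo Q p.1 + β} := by
    unfold lo D
    have h1 : MeasurableSet {p : ℝ × ℝ | p.1 ∈ Icc (-1 / 2 : ℝ) (7 / 10)} :=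
      measurable_fst measurableSet_Icc
    have h2 : MeasurableSet {p : ℝ × ℝ | sl Q.F * p.1 + Q.b + α ≤ p.2} :=
      measurableSet_le (by fun_prop) (by fun_prop)
    have h3 : MeasurableSet {p : ℝ × ℝ | p.2 ≤ sl Q.F * p.1 + Q.b + β} :=
      measurableSet_le (by fun_prop) (by fun_prop)
    exact h1.inter (h2.inter h3)
  rw [Measure.volume_eq_prod, Measure.prod_apply hm]
  have hb : ∀ x : ℝ, volume (Prod.mk x ⁻¹' {p : ℝ × ℝ | p.1 ∈ D ∧ lo Q p.1 + α ≤ p.2 ∧
      p.2 ≤ lo Q p.1 + β}) ≤ D.indicator (fun _ => ENNReal.ofReal (β - α)) x := by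
    intro x
    by_cases hx : x ∈ D
    · rw [indicator_of_mem hx]
      have : Prod.mk x ⁻¹' {p : ℝ × ℝ | p.1 ∈ D ∧ lo Q p.1 + α ≤ p.2 ∧ p.2 ≤ lo Q p.1 + β} ⊆
          Icc (lo Q x + α) (lo Q x + β) := fun y hy => hy.2
      refine (measure_mono this).trans ?_
      rw [Real.volume_Icc]
      exact ENNReal.ofReal_le_ofReal (by linarith)
    · have : Prod.mk x ⁻¹' {p : ℝ × ℝ | p.1 ∈ D ∧ lo Q p.1 + α ≤ p.2 ∧ p.2 ≤ lo Q p.1 + β} =
          ∅ := by
        ext y
        simp only [mem_preimage, mem_ofPred_eq, mem_empty_iff_false, iff_false]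
        intro h; exact hx h.1
      rw [this]
      simp
  refine (lintegral_mono hb).trans ?_
  have hDm : MeasurableSet D := measurableSet_Icc
  rw [lintegral_indicator_const hDm]
  unfold D
  rw [Real.volume_Icc, ← ENNReal.ofReal_mul (by linarith)]
  exact ENNReal.ofReal_le_ofReal (by nlinarith)

theorem kl0 (P : Strip) (hw : 0 ≤ P.w) (m : ℕ) {η δ : ℝ} (hη : 0 < η) (hδ : 0 < δ) :
    ∃ l' : List Strip, (∀ Q ∈ l', Desc m Q P ∧ 0 < Q.w ∧ Q.w ≤ η) ∧
      volume {p : ℝ × ℝ | p.1 ∈ Icc (6 / 10 : ℝ) (65 / 100) ∧ p ∈ reg P ∧ p ∉ cov l'} ≤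
        ENNReal.ofReal δ ∧
      volume {p : ℝ × ℝ | p.1 ∈ Icc (-1 / 2 : ℝ) (1 / 2) ∧ p ∈ cov l'} ≤ ENNReal.ofReal δ := by
  set W : Set (ℝ × ℝ) := {p | p.1 ∈ D ∧ p ∈ reg P} with hW
  have hWm : MeasurableSet W := by
    have h1 : MeasurableSet {p : ℝ × ℝ | p.1 ∈ D} := measurable_fst measurableSet_Icc
    exact h1.inter (reg_measurable P)
  have hWv : volume W ≤ ENNReal.ofReal (6 / 5 * P.w) := by
    refine le_trans (measure_mono ?_) (by simpa using slab P (α := 0) (β := P.w) hw)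
    rintro p ⟨h1, h2, h3⟩
    exact ⟨h1, by simpa using h2, h3.le⟩
  have hfin : IsFiniteMeasure (volume.restrict W) :=
    ⟨by rw [Measure.restrict_apply_univ]; exact hWv.trans_lt ENNReal.ofReal_lt_top⟩
  have hac : (volume.restrict W) ≪ (volume : Measure (ℝ × ℝ)) :=
    Measure.absolutelyContinuous_of_le Measure.restrict_le_self
  have hD : ∀ᵐ p ∂(volume.restrict W), p.1 ∈ D := by
    filter_upwards [ae_restrict_mem hWm] with p hp using hp.1
  set ω : ℝ × ℝ → ℝ := fun p => if p.1 ∈ Icc (6 / 10 : ℝ) (65 / 100) then 1 else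
    if p.1 ∈ Icc (-1 / 2 : ℝ) (1 / 2) then -1 else 0 with hω
  set κ : ℝ × ℝ → ℝ := fun p => if p.1 ∈ Icc (-1 / 2 : ℝ) (1 / 2) then 1 else 0 with hκ
  have mR : MeasurableSet {p : ℝ × ℝ | p.1 ∈ Icc (6 / 10 : ℝ) (65 / 100)} :=
    measurable_fst measurableSet_Icc
  have mL : MeasurableSet {p : ℝ × ℝ | p.1 ∈ Icc (-1 / 2 : ℝ) (1 / 2)} :=
    measurable_fst measurableSet_Icc
  have hκm : Measurable κ := Measurable.ite mL measurable_const measurable_const
  have hωm : Measurable ω := Measurable.ite mR measurable_const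
    (Measurable.ite mL measurable_const measurable_const)
  have hω1 : ∀ p, |ω p| ≤ 1 := by
    intro p
    simp only [hω]
    split_ifs <;> simp
  have hsgn : ∀ p, 0 ≤ ω p ∨ p.1 ≤ 6 / 10 := by
    intro p
    simp only [hω]
    split_ifs with h1 h2
    · left; norm_num
    · right; linarith [h2.2]
    · left; norm_num
  have hv : (0 : ℝ) < 6 / 5 * P.w + 1 := by positivity
  obtain ⟨n, cs, c1, c2, c3⟩ := exists_foci (δ := δ / (2 * (6 / 5 * P.w + 1))) (by positivity)
  obtain ⟨l', a1, a2⟩ := foci hac hD hωm hω1 hsgn n m hη P cs c1 (g := fun _ => 1)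
    measurable_const (fun p _ => ⟨zero_le_one, le_rfl⟩) (half_pos hδ)
  simp only [one_mul] at a2
  have hint : ∀ {u : ℝ × ℝ → ℝ}, Measurable u → (∀ p, p.1 ∈ D → |u p| ≤ 1) →
      Integrable u (volume.restrict W) := by
    intro u hu hu1
    refine Integrable.of_bound (C := 1) hu.aestronglyMeasurable ?_
    filter_upwards [hD] with p hp
    rw [Real.norm_eq_abs]
    exact hu1 p hp
  have i1 : Integrable (fun p => ω p * uc l' p) (volume.restrict W) := by
    refine hint (hωm.mul (uc_measurable l')) fun p hp => ?_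
    have := uc_mem l' p
    rw [abs_mul, abs_of_nonneg this.1]
    exact mul_le_one₀ (hω1 p) this.1 this.2
  have i2 : Integrable (fun p => ω p * V n P cs p) (volume.restrict W) := by
    refine hint (hωm.mul (V_measurable n P cs)) fun p hp => ?_
    have := V_mem n P c1 hp
    rw [abs_mul, abs_of_nonneg this.1]
    exact mul_le_one₀ (hω1 p) this.1 this.2
  have i3 : Integrable κ (volume.restrict W) := by
    refine hint hκm fun p _ => ?_
    simp only [hκ]
    split_ifs <;> simp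
  have hVb : ∫ p, (ω p * V n P cs p + κ p) ∂(volume.restrict W) ≤ δ / 2 := by
    have hb : ∀ᵐ p ∂(volume.restrict W), ω p * V n P cs p + κ p ≤
        δ / (2 * (6 / 5 * P.w + 1)) := by
      filter_upwards [ae_restrict_mem hWm] with p hp
      have hVe : V n P cs p = (cs.map fun c => 1 - f (n + 1) ((c - p.1) / 2) *
          (if p.1 ≤ c then 1 else 0)).prod := by
        unfold V
        congr 1
        refine List.map_congr_left fun c _ => ?_
        have : ic c P p = if p.1 ≤ c then 1 else 0 := by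
          unfold ic
          have h2 : lo P p.1 ≤ p.2 ∧ p.2 < lo P p.1 + P.w := hp.2
          simp [h2]
        rw [this]
      simp only [hω, hκ]
      have hd0 : 0 ≤ δ / (2 * (6 / 5 * P.w + 1)) := by positivity
      split_ifs with h1 h2 h3
      · exfalso; linarith [h1.1, h2.2]
      · have := c2 p.1 h1
        rw [hVe]; linarith
      · have := c3 p.1 h3
        rw [hVe]; linarith
      · linarith
    have h4 := integral_mono_ae (i2.add i3) (integrable_const _) hb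
    refine le_trans h4 ?_
    rw [integral_const, smul_eq_mul]
    have h5 : (volume.restrict W).real univ ≤ 6 / 5 * P.w := by
      rw [Measure.real, Measure.restrict_apply_univ]
      exact ENNReal.toReal_le_of_le_ofReal (by positivity) hWv
    calc (volume.restrict W).real univ * (δ / (2 * (6 / 5 * P.w + 1))) ≤
        (6 / 5 * P.w + 1) * (δ / (2 * (6 / 5 * P.w + 1))) :=
          mul_le_mul_of_nonneg_right (by linarith) (by positivity)
      _ = δ / 2 := by field_simp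
  have huc : ∫ p, (ω p * uc l' p + κ p) ∂(volume.restrict W) ≤ δ := by
    rw [integral_add i1 i3]
    rw [integral_add i2 i3] at hVb
    linarith
  have hnn : ∀ p, 0 ≤ ω p * uc l' p + κ p := by
    intro p
    have := uc_mem l' p
    simp only [hω, hκ]
    split_ifs <;> linarith
  have hmeas : ∀ A : Set (ℝ × ℝ), (∀ p ∈ A, 1 ≤ ω p * uc l' p + κ p) →
      MeasurableSet A → volume (A ∩ W) ≤ ENNReal.ofReal δ := by
    intro A hA hAm
    rw [← Measure.restrict_apply hAm, ← lintegral_indicator_one hAm]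
    have h6 : ∫⁻ p, A.indicator 1 p ∂(volume.restrict W) ≤
        ∫⁻ p, ENNReal.ofReal (ω p * uc l' p + κ p) ∂(volume.restrict W) := by
      refine lintegral_mono fun p => ?_
      by_cases hp : p ∈ A
      · rw [indicator_of_mem hp]
        simp only [Pi.one_apply]
        rw [← ENNReal.ofReal_one]
        exact ENNReal.ofReal_le_ofReal (hA p hp)
      · rw [indicator_of_notMem hp]
        exact zero_le
    refine h6.trans ?_
    have i4 : Integrable (fun p => ω p * uc l' p + κ p) (volume.restrict W) := i1.add i3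
    rw [← ofReal_integral_eq_lintegral_ofReal i4 (Eventually.of_forall hnn)]
    exact ENNReal.ofReal_le_ofReal huc
  refine ⟨l', a1, ?_, ?_⟩
  · have h7 := hmeas {p | p.1 ∈ Icc (6 / 10 : ℝ) (65 / 100) ∧ p ∉ cov l'} (fun p hp => by
      have e1 : uc l' p = 1 := by
        unfold uc
        rw [indicator_of_mem (show p ∈ (cov l')ᶜ from hp.2)]; rfl
      have e2 : ω p = 1 := by simp only [hω]; rw [if_pos hp.1]
      have e3 : 0 ≤ κ p := by simp only [hκ]; split_ifs <;> norm_num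
      rw [e1, e2]; linarith) (mR.inter (cov_measurable l').compl)
    refine (measure_mono ?_).trans h7
    rintro p ⟨h1, h2, h3⟩
    exact ⟨⟨h1, h3⟩, ⟨by linarith [h1.1], by linarith [h1.2]⟩, h2⟩
  · have h7 := hmeas {p | p.1 ∈ Icc (-1 / 2 : ℝ) (1 / 2) ∧ p ∈ cov l'} (fun p hp => by
      have e1 : uc l' p = 0 := by
        unfold uc
        rw [indicator_of_notMem (show p ∉ (cov l')ᶜ from fun h => h hp.2)]
      have e3 : κ p = 1 := by simp only [hκ]; rw [if_pos hp.1]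
      rw [e1, e3]; linarith) (mL.inter (cov_measurable l'))
    refine (measure_mono ?_).trans h7
    rintro p ⟨h1, h2⟩
    have hpD : p.1 ∈ D := ⟨by linarith [h1.1], by linarith [h1.2]⟩
    obtain ⟨Q, hQ, hQ2⟩ := h2
    have hd := (a1 Q hQ).1.2.2 p.1 hpD
    exact ⟨⟨h1, Q, hQ, hQ2⟩, hpD, hd.1.trans hQ2.1, hQ2.2.trans_le hd.2⟩

/-- Perturbed strips. -/
noncomputable def sep (K i : ℕ) (Q : Strip) : Strip :=
  ⟨insert (K + i) Q.F, Q.b + hh K, Q.w - 3 * hh K⟩

theorem lo_sep {K i : ℕ} {Q : Strip} (h : K + i ∉ Q.F) {x : ℝ} (hx : x ∈ D) :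
    lo Q x ≤ lo (sep K i Q) x ∧ lo (sep K i Q) x ≤ lo Q x + 2 * hh K := by
  simp only [lo, sep, sl]
  rw [Finset.sum_insert h]
  have e : (1 / 3 : ℝ) ^ (K + i + 1) = (1 / 3) ^ (K + 1) * (1 / 3) ^ i := by
    rw [← pow_add]; congr 1; ring
  have h1 : (1 / 3 : ℝ) ^ i ≤ 1 := pow_le_one₀ (by norm_num) (by norm_num)
  have h0 : (0 : ℝ) < (1 / 3) ^ i := by positivity
  have h2 : (0 : ℝ) < (1 / 3) ^ (K + 1) := by positivity
  have h3 : (1 / 3 : ℝ) ^ (K + i + 1) ≤ (1 / 3) ^ (K + 1) := by rw [e]; nlinarith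
  have h4 : (0 : ℝ) < (1 / 3) ^ (K + i + 1) := by positivity
  unfold hh
  set a := (1 / 3 : ℝ) ^ (K + i + 1)
  set b := (1 / 3 : ℝ) ^ (K + 1)
  have hx1 : -1 ≤ x := by linarith [hx.1]
  have hx2 : x ≤ 1 := by linarith [hx.2]
  constructor <;> nlinarith

theorem kl (P : Strip) (hw : 0 ≤ P.w) (m : ℕ) {η δ : ℝ} (hη : 0 < η) (hδ : 0 < δ) :
    ∃ l' : List Strip, (∀ Q ∈ l', Desc m Q P ∧ (∀ x ∈ D, lo Q x + Q.w < lo P x + P.w) ∧
        0 < Q.w ∧ Q.w ≤ η) ∧
      (∀ Q ∈ l', ∀ Q' ∈ l', Q.F = Q'.F → Q = Q') ∧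
      volume {p : ℝ × ℝ | p.1 ∈ Icc (6 / 10 : ℝ) (65 / 100) ∧ p ∈ reg P ∧ p ∉ cov l'} ≤
        ENNReal.ofReal δ ∧
      volume {p : ℝ × ℝ | p.1 ∈ Icc (-1 / 2 : ℝ) (1 / 2) ∧ p ∈ cov l'} ≤ ENNReal.ofReal δ := by
  obtain ⟨l, a1, a2, a3⟩ := kl0 P hw m hη (half_pos hδ)
  have hfin := List.finite_toSet l
  have e1 : ∀ᶠ K : ℕ in atTop, ∀ Q ∈ {Q | Q ∈ l}, ∀ k ∈ Q.F, k < K := by
    rw [Filter.eventually_all_finite hfin]
    intro Q _
    filter_upwards [eventually_gt_atTop (Q.F.sup id)] with K hK k hk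
    have := Finset.le_sup (f := id) hk
    simp only [id] at this
    omega
  have e2 : ∀ᶠ K : ℕ in atTop, ∀ Q ∈ {Q | Q ∈ l}, hh K ≤ Q.w / 4 := by
    rw [Filter.eventually_all_finite hfin]
    intro Q hQ
    exact hh_tendsto.eventually_le_const (by linarith [(a1 Q hQ).2.1])
  have e3 : ∀ᶠ K : ℕ in atTop, hh K ≤ δ / (12 * (l.length + 1)) :=
    hh_tendsto.eventually_le_const (by positivity)
  obtain ⟨K, k1, k2, k3, k4⟩ := (e1.and (e2.and (e3.and (eventually_ge_atTop m)))).exists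
  have hpos := hh_pos K
  have hnot : ∀ Q ∈ l, ∀ i, K + i ∉ Q.F := fun Q hQ i h => by
    have := k1 Q hQ _ h
    omega
  have hmem : ∀ R, R ∈ l.mapIdx (fun i Q => sep K i Q) ↔
      ∃ (i : ℕ) (h : i < l.length), sep K i l[i] = R := fun R => List.mem_mapIdx
  refine ⟨l.mapIdx fun i Q => sep K i Q, ?_, ?_, ?_, ?_⟩
  · intro R hR
    obtain ⟨i, hi, rfl⟩ := (hmem R).1 hR
    have hQl : l[i] ∈ l := List.getElem_mem hi
    obtain ⟨b1, b2, b3⟩ := a1 _ hQl
    have hnotQ := hnot _ hQl i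
    have hw4 := k2 _ hQl
    have hsep : ∀ x ∈ D, lo (sep K i l[i]) x + (sep K i l[i]).w < lo l[i] x + l[i].w := by
      intro x hx
      have := (lo_sep hnotQ hx).2
      simp only [sep] at this ⊢
      linarith
    refine ⟨⟨?_, ?_, ?_⟩, ?_, ?_, ?_⟩
    · exact b1.1.trans (Finset.subset_insert _ _)
    · intro k hk
      simp only [sep, Finset.mem_insert] at hk
      rcases hk with rfl | hk
      · right; omega
      · exact b1.2.1 k hk
    · intro x hx
      exact ⟨(b1.2.2 x hx).1.trans (lo_sep hnotQ hx).1,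
        (hsep x hx).le.trans (b1.2.2 x hx).2⟩
    · intro x hx
      exact (hsep x hx).trans_le (b1.2.2 x hx).2
    · simp only [sep]; linarith
    · simp only [sep]; linarith
  · intro R hR R' hR' hF
    obtain ⟨i, hi, rfl⟩ := (hmem R).1 hR
    obtain ⟨j, hj, rfl⟩ := (hmem R').1 hR'
    have hij : i = j := by
      have h1 : K + i ∈ (sep K j l[j]).F := by
        rw [← hF]; simp [sep]
      simp only [sep, Finset.mem_insert] at h1
      rcases h1 with h1 | h1
      · omega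
      · exact absurd h1 (hnot _ (List.getElem_mem hj) i)
    subst hij
    rfl
  · have hsub : {p : ℝ × ℝ | p.1 ∈ Icc (6 / 10 : ℝ) (65 / 100) ∧ p ∈ reg P ∧
        p ∉ cov (l.mapIdx fun i Q => sep K i Q)} ⊆
        {p : ℝ × ℝ | p.1 ∈ Icc (6 / 10 : ℝ) (65 / 100) ∧ p ∈ reg P ∧ p ∉ cov l} ∪
        ⋃ i : Fin l.length, ({p : ℝ × ℝ | p.1 ∈ D ∧ lo l[i] p.1 + 0 ≤ p.2 ∧
          p.2 ≤ lo l[i] p.1 + 2 * hh K} ∪ {p : ℝ × ℝ | p.1 ∈ D ∧
          lo l[i] p.1 + (l[i].w - 3 * hh K) ≤ p.2 ∧ p.2 ≤ lo l[i] p.1 + l[i].w}) := by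
      rintro p ⟨h1, h2, h3⟩
      have hpD : p.1 ∈ D := ⟨by linarith [h1.1], by linarith [h1.2]⟩
      by_cases h4 : p ∈ cov l
      · right
        obtain ⟨Q, hQ, hQ2⟩ := h4
        obtain ⟨i, hi, rfl⟩ := List.getElem_of_mem hQ
        rw [mem_iUnion]
        refine ⟨⟨i, hi⟩, ?_⟩
        simp only [Fin.getElem_fin]
        have hns : p ∉ reg (sep K i l[i]) := fun h => h3 ⟨_, (hmem _).2 ⟨i, hi, rfl⟩, h⟩
        have hl := lo_sep (hnot _ hQ i) hpD
        by_cases h5 : lo (sep K i l[i]) p.1 ≤ p.2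
        · right
          have h6 : lo (sep K i l[i]) p.1 + (sep K i l[i]).w ≤ p.2 := by
            by_contra h7
            push Not at h7
            exact hns ⟨h5, h7⟩
          refine ⟨hpD, ?_, hQ2.2.le⟩
          simp only [sep] at h6 hl
          linarith [hl.1]
        · left
          push Not at h5
          exact ⟨hpD, by simpa using hQ2.1, by linarith [hl.2]⟩
      · left
        exact ⟨h1, h2, h4⟩
    refine (measure_mono hsub).trans ((measure_union_le _ _).trans ?_)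
    have hU : volume (⋃ i : Fin l.length, ({p : ℝ × ℝ | p.1 ∈ D ∧ lo l[i] p.1 + 0 ≤ p.2 ∧
          p.2 ≤ lo l[i] p.1 + 2 * hh K} ∪ {p : ℝ × ℝ | p.1 ∈ D ∧
          lo l[i] p.1 + (l[i].w - 3 * hh K) ≤ p.2 ∧ p.2 ≤ lo l[i] p.1 + l[i].w})) ≤
        ENNReal.ofReal (δ / 2) := by
      refine (measure_iUnion_fintype_le _ _).trans ?_
      have hb : ∀ i : Fin l.length, volume ({p : ℝ × ℝ | p.1 ∈ D ∧ lo l[i] p.1 + 0 ≤ p.2 ∧
          p.2 ≤ lo l[i] p.1 + 2 * hh K} ∪ {p : ℝ × ℝ | p.1 ∈ D ∧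
          lo l[i] p.1 + (l[i].w - 3 * hh K) ≤ p.2 ∧ p.2 ≤ lo l[i] p.1 + l[i].w}) ≤
          ENNReal.ofReal (6 * hh K) := by
        intro i
        refine (measure_union_le _ _).trans ?_
        refine (add_le_add (slab l[i] (α := 0) (β := 2 * hh K) (by linarith))
          (slab l[i] (α := l[i].w - 3 * hh K) (β := l[i].w) (by linarith))).trans ?_
        rw [← ENNReal.ofReal_add (by nlinarith) (by nlinarith)]
        exact ENNReal.ofReal_le_ofReal (by linarith)
      refine (Finset.sum_le_sum fun i _ => hb i).trans ?_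
      rw [Finset.sum_const, Finset.card_univ, Fintype.card_fin, nsmul_eq_mul,
        ← ENNReal.ofReal_natCast, ← ENNReal.ofReal_mul (by positivity)]
      refine ENNReal.ofReal_le_ofReal ?_
      rw [le_div_iff₀ (by positivity)] at k3
      nlinarith
    refine (add_le_add a2 hU).trans ?_
    rw [← ENNReal.ofReal_add (by positivity) (by positivity)]
    exact ENNReal.ofReal_le_ofReal (by linarith)
  · refine (measure_mono ?_).trans (a3.trans (ENNReal.ofReal_le_ofReal (by linarith)))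
    rintro p ⟨h1, R, hR, hp⟩
    obtain ⟨i, hi, rfl⟩ := (hmem R).1 hR
    have hpD : p.1 ∈ D := ⟨by linarith [h1.1], by linarith [h1.2]⟩
    have hl := lo_sep (hnot _ (List.getElem_mem hi) i) hpD
    refine ⟨h1, l[i], List.getElem_mem hi, hl.1.trans hp.1, ?_⟩
    have h2 := hp.2
    simp only [sep] at h2 hl
    linarith [hl.2]

end Q195.CSeg
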