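import Pool.Agent.Q195.CSeg.Tree

/-!
# Segments with slopes in the Cantor set: null union, large union of the doubles
-/

open MeasureTheory Set Filter Topology

namespace Q195.CSeg

/-- The unit vector of slope `s`. -/
noncomputable def dir (s : ℝ) : ℝ × ℝ := (1 / Real.sqrt (1 + s ^ 2), s / Real.sqrt (1 + s ^ 2))

/-- The closed segment of length `1`, midpoint `c` and slope `s`. -/
noncomputable def unitSegment (c : ℝ × ℝ) (s : ℝ) : Set (ℝ × ℝ) :=
  segment ℝ (c - (1 / 2 : ℝ) • dir s) (c + (1 / 2 : ℝ) • dir s)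

/-- The image of `ℓ` under the dilation `x ↦ c + 2 (x - c)`. -/
def double (c : ℝ × ℝ) (ℓ : Set (ℝ × ℝ)) : Set (ℝ × ℝ) :=
  (fun x => c + (2 : ℝ) • (x - c)) '' ℓ

theorem mem_unitSegment {c : ℝ × ℝ} {s : ℝ} {p : ℝ × ℝ} :
    p ∈ unitSegment c s ↔ ∃ t ∈ Icc (-1 / 2 : ℝ) (1 / 2), p = c + t • dir s := by
  unfold unitSegment
  rw [segment_eq_image']
  constructor
  · rintro ⟨θ, hθ, rfl⟩
    refine ⟨θ - 1 / 2, ⟨by linarith [hθ.1], by linarith [hθ.2]⟩, ?_⟩
    module
  · rintro ⟨t, ht, rfl⟩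
    refine ⟨t + 1 / 2, ⟨by linarith [ht.1], by linarith [ht.2]⟩, ?_⟩
    simp only
    module

section
variable {A : ℕ → List Strip} {m : ℕ → ℕ} (hG : ∀ n, Good (A n) (m n))
  (hN : ∀ n : ℕ, Next (A n) (m n) (A (n + 1)) (m (n + 1)) (1 / (n + 1)) (1 / 100 * (1 / 2) ^ n))

/-- The limit lines. -/
def Lim (A : ℕ → List Strip) (m : ℕ → ℕ) (G : ℕ → Bool) (b : ℝ) : Prop :=
  ∀ n, ∃ P ∈ A n, P.F = ini G (m n) ∧
    ∀ x ∈ D, lo P x ≤ slope G * x + b ∧ slope G * x + b ≤ lo P x + P.w

include hN in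
theorem m_ge (n : ℕ) : n ≤ m n := by
  induction n with
  | zero => exact Nat.zero_le _
  | succ n ih =>
    have := (hN n).1
    omega

include hG hN

theorem lim_unique {G : ℕ → Bool} {b b' : ℝ} (h : Lim A m G b) (h' : Lim A m G b') : b = b' := by
  have h0 : (0 : ℝ) ∈ D := ⟨by norm_num, by norm_num⟩
  have key : ∀ n : ℕ, |b - b'| ≤ 1 / (n + 1) := by
    intro n
    obtain ⟨P, hP, hF, hb⟩ := h (n + 1)
    obtain ⟨P', hP', hF', hb'⟩ := h' (n + 1)
    have e : P = P' := (hG (n + 1)).2.2 P hP P' hP' (by rw [hF, hF'])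
    subst e
    obtain ⟨_, _, _, _, hw⟩ := (hN n).2.1 P hP
    have h1 := hb 0 h0
    have h2 := hb' 0 h0
    simp only [mul_zero, zero_add] at h1 h2
    rw [abs_le]
    constructor <;> linarith [h1.1, h1.2, h2.1, h2.2]
  have : |b - b'| ≤ 0 := ge_of_tendsto' tendsto_one_div_add_atTop_nhds_zero_nat key
  have := abs_nonpos_iff.1 this
  linarith

theorem exists_lim {p : ℝ × ℝ} (hpD : p.1 ∈ D) (hp : ∀ n, p ∈ cov (A n)) :
    ∃ (G : ℕ → Bool) (b : ℝ), Lim A m G b ∧ p.2 = slope G * p.1 + b := by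
  classical
  set Z : ℕ → Set (ℕ → Bool) := fun n => {G | ∃ P ∈ A n, P.F = ini G (m n) ∧ p ∈ reg P} with hZ
  have hcl : ∀ n, IsClosed (Z n) := by
    intro n
    set ρ : (ℕ → Bool) → (Fin (m n) → Bool) := fun G i => G i with hρ
    have hρc : Continuous ρ := continuous_pi fun i => continuous_apply _
    have e : Z n = ρ ⁻¹' (ρ '' Z n) := by
      refine Subset.antisymm (subset_preimage_image _ _) ?_
      rintro G ⟨G', ⟨P, hP, hF, hp2⟩, hGG⟩
      refine ⟨P, hP, ?_, hp2⟩
      rw [hF]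
      unfold ini
      refine Finset.filter_congr fun k hk => ?_
      have := congrFun hGG ⟨k, Finset.mem_range.1 hk⟩
      simp only [hρ] at this
      rw [this]
    rw [e]
    exact (isClosed_discrete _).preimage hρc
  have hdec : ∀ n, Z (n + 1) ⊆ Z n := by
    rintro n G ⟨P, hP, hF, hp2⟩
    obtain ⟨P', hP', hF', hx, -⟩ := (hN n).2.1 P hP
    refine ⟨P', hP', ?_, ?_⟩
    · rw [hF', hF]
      unfold ini
      have h1 := (hN n).1
      ext k
      simp only [Finset.mem_filter, Finset.mem_range]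
      constructor
      · rintro ⟨⟨_, a⟩, b⟩; exact ⟨b, a⟩
      · rintro ⟨a, b⟩; exact ⟨⟨by omega, b⟩, a⟩
    · have := hx p.1 hpD
      exact ⟨this.1.trans hp2.1, hp2.2.trans this.2⟩
  have hne : ∀ n, (Z n).Nonempty := by
    intro n
    obtain ⟨P, hP, hp2⟩ := hp n
    refine ⟨fun k => decide (k ∈ P.F), P, hP, ?_, hp2⟩
    unfold ini
    ext k
    simp only [Finset.mem_filter, Finset.mem_range, decide_eq_true_eq]
    exact ⟨fun h => ⟨(hG n).2.1 P hP k h, h⟩, fun h => h.2⟩
  obtain ⟨G, hGm⟩ := IsCompact.nonempty_iInter_of_sequence_nonempty_isCompact_isClosed Z hdec hne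
    (hcl 0).isCompact hcl
  rw [mem_iInter] at hGm
  choose P hP hF hp2 using hGm
  have hnest : ∀ n, ∀ x ∈ D, lo (P n) x ≤ lo (P (n + 1)) x ∧
      lo (P (n + 1)) x + (P (n + 1)).w ≤ lo (P n) x + (P n).w := by
    intro n x hx
    obtain ⟨P', hP', hF', hx', -⟩ := (hN n).2.1 (P (n + 1)) (hP (n + 1))
    have e : P' = P n := by
      refine (hG n).2.2 P' hP' (P n) (hP n) ?_
      rw [hF', hF, hF]
      unfold ini
      have h1 := (hN n).1
      ext k
      simp only [Finset.mem_filter, Finset.mem_range]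
      constructor
      · rintro ⟨⟨_, a⟩, b⟩; exact ⟨b, a⟩
      · rintro ⟨a, b⟩; exact ⟨⟨by omega, b⟩, a⟩
    rw [← e]
    exact ⟨(hx' x hx).1, (hx' x hx).2.le⟩
  have hnest' : ∀ n j, n ≤ j → ∀ x ∈ D, lo (P n) x ≤ lo (P j) x ∧
      lo (P j) x + (P j).w ≤ lo (P n) x + (P n).w := by
    intro n j hnj
    induction j, hnj using Nat.le_induction with
    | base => intro x _; exact ⟨le_rfl, le_rfl⟩
    | succ j _ ih =>
      intro x hx
      exact ⟨(ih x hx).1.trans (hnest j x hx).1, (hnest j x hx).2.trans (ih x hx).2⟩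
  refine ⟨G, p.2 - slope G * p.1, fun n => ⟨P n, hP n, hF n, fun x hx => ?_⟩, by ring⟩
  have hsl : Tendsto (fun j => sl (P j).F) atTop (𝓝 (slope G)) := by
    rw [tendsto_iff_norm_sub_tendsto_zero]
    refine squeeze_zero (fun _ => norm_nonneg _) (fun j => ?_)
      (tendsto_pow_atTop_nhds_zero_of_lt_one (r := (1 / 3 : ℝ)) (by norm_num) (by norm_num))
    rw [hF, Real.norm_eq_abs, abs_sub_comm]
    refine (slope_sub G (m j)).trans ?_
    exact pow_le_pow_of_le_one (by norm_num) (by norm_num) (m_ge hN j)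
  have hlim : Tendsto (fun j => sl (P j).F * (x - p.1) + p.2) atTop
      (𝓝 (slope G * x + (p.2 - slope G * p.1))) := by
    have := (hsl.mul_const (x - p.1)).add_const p.2
    convert this using 2
    ring
  have hb : ∀ j, n ≤ j → lo (P n) x ≤ sl (P j).F * (x - p.1) + p.2 ∧
      sl (P j).F * (x - p.1) + p.2 ≤ lo (P n) x + (P n).w := by
    intro j hj
    have h1 := hnest' n j hj x hx
    have h2 := hp2 j
    have h3 : lo (P j) x = sl (P j).F * (x - p.1) + lo (P j) p.1 := by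
      unfold lo; ring
    have h4 : lo (P j) p.1 ≤ p.2 := h2.1
    have h5 : p.2 < lo (P j) p.1 + (P j).w := h2.2
    constructor <;> linarith [h1.1, h1.2]
  constructor
  · exact ge_of_tendsto hlim (by
      filter_upwards [eventually_ge_atTop n] with j hj using (hb j hj).1)
  · exact le_of_tendsto hlim (by
      filter_upwards [eventually_ge_atTop n] with j hj using (hb j hj).2)

/-- The left parts of the limit lines lie in the strips. -/
theorem lim_mem {G : ℕ → Bool} {b : ℝ} (h : Lim A m G b) {x : ℝ} (hx : x ∈ D) (n : ℕ) :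
    (x, slope G * x + b) ∈ cov (A n) := by
  obtain ⟨P, hP, -, hb⟩ := h (n + 1)
  obtain ⟨P', hP', -, hx', -⟩ := (hN n).2.1 P hP
  refine ⟨P', hP', (hx' x hx).1.trans (hb x hx).1, (hb x hx).2.trans_lt (hx' x hx).2⟩
end

theorem main : ∃ (S : Set ℝ) (c : ℝ → ℝ × ℝ), S ⊆ cantorSet ∧
    volume (⋃ s ∈ S, unitSegment (c s) s) = 0 ∧
    0 < volume (⋃ s ∈ S, double (c s) (unitSegment (c s) s)) := by
  classical
  obtain ⟨A, m, hA0, hG, hN⟩ := exists_seq
  set S : Set ℝ := {s | ∃ (G : ℕ → Bool) (b : ℝ), Lim A m G b ∧ slope G = s} with hS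
  have hex : ∀ s : ℝ, ∃ b : ℝ, s ∈ S → ∃ G : ℕ → Bool, Lim A m G b ∧ slope G = s := by
    intro s
    by_cases hs : s ∈ S
    · obtain ⟨G, b, h1, h2⟩ := hs
      exact ⟨b, fun _ => ⟨G, h1, h2⟩⟩
    · exact ⟨0, fun h => absurd h hs⟩
  choose β hβ using hex
  have hsqrt : ∀ s : ℝ, 1 ≤ Real.sqrt (1 + s ^ 2) := fun s => by
    rw [Real.one_le_sqrt]; nlinarith [sq_nonneg s]
  refine ⟨S, fun s => (0, β s), ?_, ?_, ?_⟩
  · rintro s ⟨G, b, -, rfl⟩
    exact slope_mem G
  · have hsub : ∀ n, (⋃ s ∈ S, unitSegment (0, β s) s) ⊆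
        {p : ℝ × ℝ | p.1 ∈ Icc (-1 / 2 : ℝ) (1 / 2) ∧ p ∈ cov (A (n + 1))} := by
      intro n p hp
      simp only [mem_iUnion] at hp
      obtain ⟨s, hs, hp⟩ := hp
      obtain ⟨G, hlim, rfl⟩ := hβ s hs
      obtain ⟨t, ht, rfl⟩ := mem_unitSegment.1 hp
      have hq := hsqrt (slope G)
      have hq0 : 0 < Real.sqrt (1 + slope G ^ 2) := by linarith
      have e1 : ((0, β (slope G)) + t • dir (slope G) : ℝ × ℝ) =
          (t / Real.sqrt (1 + slope G ^ 2),
            slope G * (t / Real.sqrt (1 + slope G ^ 2)) + β (slope G)) := by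
        ext
        · simp [dir]; ring
        · simp [dir]; ring
      rw [e1]
      have hx1 : t / Real.sqrt (1 + slope G ^ 2) ∈ Icc (-1 / 2 : ℝ) (1 / 2) := by
        constructor
        · rw [le_div_iff₀ hq0]; nlinarith [ht.1]
        · rw [div_le_iff₀ hq0]; nlinarith [ht.2]
      exact ⟨hx1, lim_mem hG hN hlim ⟨by linarith [hx1.1], by linarith [hx1.2]⟩ (n + 1)⟩
    have hle : ∀ n : ℕ, volume (⋃ s ∈ S, unitSegment (0, β s) s) ≤
        ENNReal.ofReal (1 / 100 * (1 / 2) ^ n) := fun n =>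
      (measure_mono (hsub n)).trans (hN n).2.2.2
    have htend : Tendsto (fun n : ℕ => ENNReal.ofReal (1 / 100 * (1 / 2 : ℝ) ^ n)) atTop (𝓝 0) := by
      have h1 := (tendsto_pow_atTop_nhds_zero_of_lt_one (r := (1 / 2 : ℝ)) (by norm_num)
        (by norm_num)).const_mul (1 / 100)
      rw [mul_zero] at h1
      have h2 := ENNReal.tendsto_ofReal h1
      rwa [ENNReal.ofReal_zero] at h2
    exact le_antisymm (ge_of_tendsto' htend hle) (zero_le)
  · set Rt : Set (ℝ × ℝ) := {p | p.1 ∈ Icc (6 / 10 : ℝ) (65 / 100) ∧ ∀ n, p ∈ cov (A n)} with hRt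
    have hsub : Rt ⊆ ⋃ s ∈ S, double (0, β s) (unitSegment (0, β s) s) := by
      rintro p ⟨hp1, hp2⟩
      have hpD : p.1 ∈ D := ⟨by linarith [hp1.1], by linarith [hp1.2]⟩
      obtain ⟨G, b, hlim, hpe⟩ := exists_lim hG hN hpD hp2
      have hs : slope G ∈ S := ⟨G, b, hlim, rfl⟩
      obtain ⟨G', hlim', hGG⟩ := hβ (slope G) hs
      have hGG' : G' = G := slope_injective hGG
      subst hGG'
      have hb : β (slope G') = b := lim_unique hG hN hlim' hlim
      simp only [mem_iUnion]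
      refine ⟨slope G', hs, ?_⟩
      have hq := hsqrt (slope G')
      have hq0 : 0 < Real.sqrt (1 + slope G' ^ 2) := by linarith
      have hq2 : Real.sqrt (1 + slope G' ^ 2) ≤ 3 / 2 := by
        rw [Real.sqrt_le_left (by norm_num)]
        nlinarith [slope_nonneg G', slope_le_one G']
      refine ⟨(0, β (slope G')) + (p.1 * Real.sqrt (1 + slope G' ^ 2) / 2) • dir (slope G'),
        mem_unitSegment.2 ⟨_, ⟨?_, ?_⟩, rfl⟩, ?_⟩
      · nlinarith [hp1.1, hp1.2]
      · nlinarith [hp1.1, hp1.2]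
      · ext
        · simp [dir]
          field_simp
        · simp [dir]
          rw [hb, hpe]
          field_simp
          ring
    refine lt_of_lt_of_le ?_ (measure_mono hsub)
    have hcover : Icc (6 / 10 : ℝ) (65 / 100) ×ˢ Ico (0 : ℝ) 1 ⊆ Rt ∪
        ⋃ n, {p : ℝ × ℝ | p.1 ∈ Icc (6 / 10 : ℝ) (65 / 100) ∧ p ∈ cov (A n) ∧
          p ∉ cov (A (n + 1))} := by
      rintro p ⟨h1, h2⟩
      by_cases h : ∀ n, p ∈ cov (A n)
      · exact Or.inl ⟨h1, h⟩
      · right
        push Not at h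
        have h0 : p ∈ cov (A 0) := by
          rw [hA0]
          refine ⟨P₀, by simp, ?_⟩
          simp only [reg, lo, P₀, sl, Finset.sum_empty, zero_mul, zero_add]
          exact h2
        rw [mem_iUnion]
        have hfind := Nat.find_spec h
        have hmin := fun k => Nat.find_min (m := k) h
        have hpos : Nat.find h ≠ 0 := fun h4 => by
          rw [h4] at hfind; exact hfind h0
        obtain ⟨k, hk⟩ := Nat.exists_eq_succ_of_ne_zero hpos
        refine ⟨k, h1, ?_, ?_⟩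
        · have := hmin k (by omega)
          simpa using this
        · rw [hk] at hfind
          exact hfind
    have hvol : volume (Icc (6 / 10 : ℝ) (65 / 100) ×ˢ Ico (0 : ℝ) 1) = ENNReal.ofReal (1 / 20) := by
      rw [Measure.volume_eq_prod, Measure.prod_prod, Real.volume_Icc, Real.volume_Ico,
        ← ENNReal.ofReal_mul (by norm_num)]
      norm_num
    have hloss : volume (⋃ n, {p : ℝ × ℝ | p.1 ∈ Icc (6 / 10 : ℝ) (65 / 100) ∧ p ∈ cov (A n) ∧
          p ∉ cov (A (n + 1))}) ≤ ENNReal.ofReal (1 / 50) := by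
      refine (measure_iUnion_le _).trans ?_
      refine (ENNReal.tsum_le_tsum fun n => (hN n).2.2.1).trans ?_
      have hsum : Summable fun n : ℕ => 1 / 100 * (1 / 2 : ℝ) ^ n :=
        (summable_geometric_of_lt_one (by norm_num) (by norm_num)).mul_left _
      rw [← ENNReal.ofReal_tsum_of_nonneg (fun n => by positivity) hsum]
      refine ENNReal.ofReal_le_ofReal ?_
      rw [tsum_mul_left, tsum_geometric_of_lt_one (by norm_num) (by norm_num)]
      norm_num
    by_contra hcon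
    have hz : volume Rt = 0 := by
      simpa using hcon
    have h5 := (measure_mono (μ := volume) hcover).trans (measure_union_le _ _)
    rw [hvol, hz, zero_add] at h5
    have h6 := h5.trans hloss
    rw [ENNReal.ofReal_le_ofReal_iff (by norm_num)] at h6
    norm_num at h6

end Q195.CSeg
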