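import Pool.Agent.Q195.CSeg.Step

/-!
# Refinement of lists of strips
-/

open MeasureTheory Set Filter Topology

namespace Q195.CSeg

theorem line_null (a b : ℝ) : volume {p : ℝ × ℝ | p.2 = a * p.1 + b} = 0 := by
  have hm : MeasurableSet {p : ℝ × ℝ | p.2 = a * p.1 + b} :=
    measurableSet_eq_fun (by fun_prop) (by fun_prop)
  rw [Measure.volume_eq_prod, Measure.measure_prod_null hm]
  refine Eventually.of_forall fun x => ?_
  have : Prod.mk x ⁻¹' {p : ℝ × ℝ | p.2 = a * p.1 + b} = {a * x + b} := by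
    ext y; simp
  simp [this]

theorem ic_ev_measurable (k : ℕ) (P : Strip) (c : ℝ) (j : ℕ) :
    Measurable fun z : ℝ × (ℝ × ℝ) => ic c (ev k P z.1 j) z.2 := by
  unfold ic lo ev
  have h1 : MeasurableSet {z : ℝ × (ℝ × ℝ) | z.2.1 ≤ c} :=
    measurableSet_le (by fun_prop) (by fun_prop)
  have h2 : MeasurableSet {z : ℝ × (ℝ × ℝ) | sl P.F * z.2.1 + (P.b + 2 * hh k * (z.1 + j)) ≤
      z.2.2} := measurableSet_le (by fun_prop) (by fun_prop)
  have h3 : MeasurableSet {z : ℝ × (ℝ × ℝ) | z.2.2 <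
      sl P.F * z.2.1 + (P.b + 2 * hh k * (z.1 + j)) + hh k} :=
    measurableSet_lt (by fun_prop) (by fun_prop)
  exact Measurable.ite (h1.inter (h2.inter h3)) measurable_const measurable_const

theorem ic_od_measurable (k : ℕ) (P : Strip) (c : ℝ) (j : ℕ) :
    Measurable fun z : ℝ × (ℝ × ℝ) => ic c (od k P c z.1 j) z.2 := by
  unfold ic lo od
  have h1 : MeasurableSet {z : ℝ × (ℝ × ℝ) | z.2.1 ≤ c} :=
    measurableSet_le (by fun_prop) (by fun_prop)
  have h2 : MeasurableSet {z : ℝ × (ℝ × ℝ) | sl (insert k P.F) * z.2.1 +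
      (P.b + 2 * hh k * (z.1 + j) + hh k - hh k / 2 * c) ≤ z.2.2} :=
    measurableSet_le (by fun_prop) (by fun_prop)
  have h3 : MeasurableSet {z : ℝ × (ℝ × ℝ) | z.2.2 <
      sl (insert k P.F) * z.2.1 + (P.b + 2 * hh k * (z.1 + j) + hh k - hh k / 2 * c) + hh k} :=
    measurableSet_lt (by fun_prop) (by fun_prop)
  exact Measurable.ite (h1.inter (h2.inter h3)) measurable_const measurable_const

theorem U_lst_measurable (k : ℕ) (P : Strip) (c : ℝ) (n : ℕ) :
    Measurable fun z : ℝ × (ℝ × ℝ) => U c n (lst k P c z.1) z.2 := by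
  simp only [U_lst]
  have h0 : Measurable fun z : ℝ × (ℝ × ℝ) => f n ((c - z.2.1) / 2) :=
    (fc_measurable c n).comp measurable_snd
  refine Measurable.mul ?_ ?_
  · exact Finset.measurable_fun_prod _ fun j _ =>
      measurable_const.sub (h0.mul (ic_ev_measurable k P c j))
  · exact Finset.measurable_fun_prod _ fun j _ =>
      measurable_const.sub (h0.mul (ic_od_measurable k P c j))

section
variable {ν : Measure (ℝ × ℝ)} [IsFiniteMeasure ν] (hν : ν ≪ volume)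
  (hD : ∀ᵐ p ∂ν, p.1 ∈ D) {ω : ℝ × ℝ → ℝ} (hω : Measurable ω) (hω1 : ∀ p, |ω p| ≤ 1)
  {c : ℝ} (hc : c ∈ Icc (6 / 10 : ℝ) (7 / 10))
include hν hD hω hω1 hc

/-- Refining one strip. -/
theorem step {g : ℝ × ℝ → ℝ} (hg : Measurable g) (hg1 : ∀ p, p.1 ∈ D → 0 ≤ g p ∧ g p ≤ 1)
    (P : Strip) (n m : ℕ) {ε η : ℝ} (hε : 0 < ε) (hη : 0 < η) :
    ∃ l : List Strip, (∀ Q ∈ l, Desc m Q P ∧ 0 < Q.w ∧ Q.w ≤ η) ∧
      ∫ p, ω p * (g p * U c n l p) ∂ν ≤
        ∫ p, ω p * (g p * (1 - f (n + 1) ((c - p.1) / 2) * ic c P p)) ∂ν + ε := by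
  have hgb : ∀ p : ℝ × ℝ, p.1 ∈ D → |g p| ≤ 1 := fun p hp => by
    rw [abs_of_nonneg (hg1 p hp).1]; exact (hg1 p hp).2
  have hUb : ∀ (p : ℝ × ℝ) (l : List Strip), p.1 ∈ D → |U c n l p| ≤ 1 := fun p l hp => by
    have := U_mem hc hp n l
    rw [abs_of_nonneg this.1]; exact this.2
  have hAm : ∀ k, AEStronglyMeasurable (fun p => Avg k P c n p) ν := by
    intro k
    unfold Avg
    have h1 : StronglyMeasurable fun z : (ℝ × ℝ) × ℝ => U c n (lst k P c z.2) z.1 :=
      ((U_lst_measurable k P c n).comp measurable_swap).stronglyMeasurable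
    have h2 := h1.integral_prod_right' (ν := volume.restrict (Ioc (0 : ℝ) 1))
    simp only [intervalIntegral.integral_of_le zero_le_one]
    exact h2.aestronglyMeasurable
  have hAb : ∀ k (p : ℝ × ℝ), p.1 ∈ D → |Avg k P c n p| ≤ 1 := by
    intro k p hp
    unfold Avg
    have := intervalIntegral.norm_integral_le_of_norm_le_const (a := (0 : ℝ)) (b := 1) (C := 1)
      (f := fun θ => U c n (lst k P c θ) p) (fun θ _ => hUb p _ hp)
    simpa using this
  have hlim : Tendsto (fun k => ∫ p, ω p * (g p * Avg k P c n p) ∂ν) atTop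
      (𝓝 (∫ p, ω p * (g p * (1 - f (n + 1) ((c - p.1) / 2) * ic c P p)) ∂ν)) := by
    refine tendsto_integral_of_dominated_convergence (fun _ => (1 : ℝ)) (fun k => ?_)
      (integrable_const _) (fun k => ?_) ?_
    · exact hω.aestronglyMeasurable.mul (hg.aestronglyMeasurable.mul (hAm k))
    · filter_upwards [hD] with p hp
      rw [norm_mul, norm_mul, Real.norm_eq_abs, Real.norm_eq_abs, Real.norm_eq_abs]
      have a1 := hω1 p
      have a2 := hgb p hp
      have a3 := hAb k p hp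
      exact mul_le_one₀ a1 (by positivity) (mul_le_one₀ a2 (abs_nonneg _) a3)
    · have n1' : ∀ᵐ p ∂(volume : Measure (ℝ × ℝ)), p.2 ≠ lo P p.1 := by
        rw [ae_iff]
        simp only [ne_eq, not_not, lo]
        exact line_null _ _
      have n2' : ∀ᵐ p ∂(volume : Measure (ℝ × ℝ)), p.2 ≠ lo P p.1 + P.w := by
        rw [ae_iff]
        simp only [ne_eq, not_not, lo, add_assoc]
        exact line_null _ _
      have n1 : ∀ᵐ p ∂ν, p.2 ≠ lo P p.1 := hν.ae_le n1'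
      have n2 : ∀ᵐ p ∂ν, p.2 ≠ lo P p.1 + P.w := hν.ae_le n2'
      filter_upwards [hD, n1, n2] with p hp h1 h2
      refine tendsto_const_nhds.congr' ?_
      filter_upwards [Avg_eventually hc n hp h1 h2] with k hk
      rw [hk]
  have hev := hlim.eventually_lt_const (show _ < _ + ε from lt_add_of_pos_right _ hε)
  have hF : ∀ᶠ k : ℕ in atTop, k ∉ P.F := by
    filter_upwards [eventually_gt_atTop (P.F.sup id)] with k hk hmem
    have := Finset.le_sup (f := id) hmem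
    simp only [id] at this
    omega
  have hη' : ∀ᶠ k in atTop, hh k ≤ η := hh_tendsto.eventually_le_const hη
  obtain ⟨k, k1, k2, k3, k4⟩ := (hev.and (hF.and (hη'.and (eventually_ge_atTop m)))).exists
  -- Fubini
  have hint : Integrable (Function.uncurry fun (p : ℝ × ℝ) (θ : ℝ) =>
      ω p * (g p * U c n (lst k P c θ) p)) (ν.prod (volume.restrict (Ioc (0 : ℝ) 1))) := by
    refine Integrable.of_bound (C := 1) ?_ ?_
    · refine Measurable.aestronglyMeasurable ?_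
      exact (hω.comp measurable_fst).mul ((hg.comp measurable_fst).mul
        ((U_lst_measurable k P c n).comp measurable_swap))
    · have hDz : ∀ᵐ z ∂(ν.prod (volume.restrict (Ioc (0 : ℝ) 1))), z.1.1 ∈ D :=
        Measure.quasiMeasurePreserving_fst.ae hD
      filter_upwards [hDz] with z hz
      simp only [Function.uncurry]
      rw [norm_mul, norm_mul, Real.norm_eq_abs, Real.norm_eq_abs, Real.norm_eq_abs]
      exact mul_le_one₀ (hω1 _) (by positivity) (mul_le_one₀ (hgb _ hz) (abs_nonneg _)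
        (hUb _ _ hz))
  have hswap := integral_integral_swap hint
  have e1 : ∫ p, ω p * (g p * Avg k P c n p) ∂ν =
      ∫ p, (∫ θ in Ioc (0 : ℝ) 1, ω p * (g p * U c n (lst k P c θ) p)) ∂ν := by
    refine integral_congr_ae (Eventually.of_forall fun p => ?_)
    simp only
    rw [integral_const_mul, integral_const_mul]
    unfold Avg
    rw [intervalIntegral.integral_of_le zero_le_one]
  rw [e1, hswap] at k1
  have hint2 : IntegrableOn (fun θ : ℝ => ∫ p, ω p * (g p * U c n (lst k P c θ) p) ∂ν)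
      (Ioc (0 : ℝ) 1) volume := hint.integral_prod_right
  obtain ⟨θ, hθ, hle⟩ := exists_le_setAverage (by simp) (by simp) hint2
  have hθ' : θ ∈ Icc (0 : ℝ) 1 := Ioc_subset_Icc_self hθ
  refine ⟨lst k P c θ, fun Q hQ => ?_, ?_⟩
  · obtain ⟨d1, d2⟩ := lst_desc k2 k4 hc hθ' Q hQ
    exact ⟨d1, by rw [d2]; exact hh_pos k, by rw [d2]; exact k3⟩
  · rw [setAverage_eq] at hle
    simp only [Real.volume_real_Ioc, sub_zero, max_eq_left zero_le_one, inv_one,
      one_smul] at hle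
    exact hle.trans k1.le

/-- Refining a list of strips by one step. -/
theorem stepList (n m : ℕ) {η : ℝ} (hη : 0 < η) (l : List Strip) :
    ∀ {g : ℝ × ℝ → ℝ}, Measurable g → (∀ p, p.1 ∈ D → 0 ≤ g p ∧ g p ≤ 1) →
    ∀ {ε : ℝ}, 0 < ε →
    ∃ l' : List Strip, (∀ Q ∈ l', ∃ P ∈ l, Desc m Q P ∧ 0 < Q.w ∧ Q.w ≤ η) ∧
      ∫ p, ω p * (g p * U c n l' p) ∂ν ≤ ∫ p, ω p * (g p * U c (n + 1) l p) ∂ν + ε := by
  induction l with
  | nil =>
    intro g _ _ ε hε
    refine ⟨[], by simp, ?_⟩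
    simp only [U_nil]
    linarith
  | cons P l ih =>
    intro g hg hg1 ε hε
    have hU1 := U_measurable c (n + 1) l
    obtain ⟨l1, a1, a2⟩ := step hν hD hω hω1 hc (hg.mul hU1) (fun p hp => by
      have h1 := hg1 p hp
      have h2 := U_mem hc hp (n + 1) l
      exact ⟨mul_nonneg h1.1 h2.1, mul_le_one₀ h1.2 h2.1 h2.2⟩) P n m (half_pos hε) hη
    obtain ⟨l2, b1, b2⟩ := ih (hg.mul (U_measurable c n l1)) (fun p hp => by
      have h1 := hg1 p hp
      have h2 := U_mem hc hp n l1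
      exact ⟨mul_nonneg h1.1 h2.1, mul_le_one₀ h1.2 h2.1 h2.2⟩) (half_pos hε)
    refine ⟨l1 ++ l2, fun Q hQ => ?_, ?_⟩
    · rcases List.mem_append.1 hQ with h | h
      · exact ⟨P, by simp, a1 Q h⟩
      · obtain ⟨P', h1, h2⟩ := b1 Q h
        exact ⟨P', by simp [h1], h2⟩
    · simp only [U_append, U_cons]
      have e1 : ∀ p, ω p * (g p * (U c n l1 p * U c n l2 p)) =
          ω p * ((g * U c n l1) p * U c n l2 p) := fun p => by simp only [Pi.mul_apply]; ring
      have e2 : ∀ p, ω p * ((g * U c n l1) p * U c (n + 1) l p) =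
          ω p * ((g * U c (n + 1) l) p * U c n l1 p) := fun p => by
        simp only [Pi.mul_apply]; ring
      have e3 : ∀ p, ω p * (g p * ((1 - f (n + 1) ((c - p.1) / 2) * ic c P p) *
          U c (n + 1) l p)) = ω p * ((g * U c (n + 1) l) p *
            (1 - f (n + 1) ((c - p.1) / 2) * ic c P p)) := fun p => by
        simp only [Pi.mul_apply]; ring
      simp only [e1, e3]
      simp only [e2] at b2
      linarith

/-- Refining a list of strips completely. -/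
theorem full (m : ℕ) {η : ℝ} (hη : 0 < η) (n : ℕ) :
    ∀ (l : List Strip), (∀ P ∈ l, 0 < P.w ∧ P.w ≤ η) → ∀ {g : ℝ × ℝ → ℝ}, Measurable g →
    (∀ p, p.1 ∈ D → 0 ≤ g p ∧ g p ≤ 1) → ∀ {ε : ℝ}, 0 < ε →
    ∃ l' : List Strip, (∀ Q ∈ l', ∃ P ∈ l, Desc m Q P ∧ 0 < Q.w ∧ Q.w ≤ η) ∧
      ∫ p, ω p * (g p * U c 0 l' p) ∂ν ≤ ∫ p, ω p * (g p * U c n l p) ∂ν + ε := by
  induction n with
  | zero =>
    intro l hl g _ _ ε hε
    refine ⟨l, fun Q hQ => ⟨Q, hQ, Desc.refl m Q, hl Q hQ⟩, by linarith⟩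
  | succ n ih =>
    intro l hl g hg hg1 ε hε
    obtain ⟨l1, a1, a2⟩ := stepList hν hD hω hω1 hc n m hη l hg hg1 (half_pos hε)
    obtain ⟨l2, b1, b2⟩ := ih l1 (fun P hP => by
      obtain ⟨_, _, h⟩ := a1 P hP
      exact h.2) hg hg1 (half_pos hε)
    refine ⟨l2, fun Q hQ => ?_, by linarith⟩
    obtain ⟨P, h1, h2, h3⟩ := b1 Q hQ
    obtain ⟨P', h4, h5, _⟩ := a1 P h1
    exact ⟨P', h4, h2.trans h5, h3⟩

/-- Refining one strip completely, with thin strips. -/
theorem full' (m n : ℕ) {η : ℝ} (hη : 0 < η) (P : Strip) {g : ℝ × ℝ → ℝ} (hg : Measurable g)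
    (hg1 : ∀ p, p.1 ∈ D → 0 ≤ g p ∧ g p ≤ 1) {ε : ℝ} (hε : 0 < ε) :
    ∃ l' : List Strip, (∀ Q ∈ l', Desc m Q P ∧ 0 < Q.w ∧ Q.w ≤ η) ∧
      ∫ p, ω p * (g p * U c 0 l' p) ∂ν ≤
        ∫ p, ω p * (g p * (1 - f (n + 1) ((c - p.1) / 2) * ic c P p)) ∂ν + ε := by
  obtain ⟨l1, a1, a2⟩ := step hν hD hω hω1 hc hg hg1 P n m (half_pos hε) hη
  obtain ⟨l2, b1, b2⟩ := full hν hD hω hω1 hc m hη n l1 (fun P hP => (a1 P hP).2) hg hg1
    (half_pos hε)
  refine ⟨l2, fun Q hQ => ?_, by linarith⟩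
  obtain ⟨P', h1, h2, h3⟩ := b1 Q hQ
  exact ⟨h2.trans (a1 P' h1).1, h3⟩
end

end Q195.CSeg
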