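import Pool.Agent.Q195.CSeg.Core

/-!
# Strips and one refinement step
-/

open MeasureTheory Set Filter Topology

namespace Q195.CSeg

/-- The slope with ternary digits `2` in the places of `F`. -/
noncomputable def sl (F : Finset ℕ) : ℝ := ∑ k ∈ F, 2 * (1 / 3 : ℝ) ^ (k + 1)

/-- A strip of slope `sl F`, intercept `b` and vertical width `w`. -/
structure Strip where
  F : Finset ℕ
  b : ℝ
  w : ℝ

/-- The lower edge of a strip. -/
noncomputable def lo (P : Strip) (x : ℝ) : ℝ := sl P.F * x + P.b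

/-- The region of a strip. -/
def reg (P : Strip) : Set (ℝ × ℝ) := {p | lo P p.1 ≤ p.2 ∧ p.2 < lo P p.1 + P.w}

/-- The indicator of the part of a strip to the left of the abscissa `c`. -/
noncomputable def ic (c : ℝ) (P : Strip) (p : ℝ × ℝ) : ℝ :=
  if p.1 ≤ c ∧ lo P p.1 ≤ p.2 ∧ p.2 < lo P p.1 + P.w then 1 else 0

/-- The range of abscissae. -/
def D : Set ℝ := Icc (-1 / 2) (7 / 10)

/-- `Q` is a descendant of `P`: new digits are at least `m`, and `Q` is inside `P`. -/
def Desc (m : ℕ) (Q P : Strip) : Prop :=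
  P.F ⊆ Q.F ∧ (∀ k ∈ Q.F, k ∈ P.F ∨ m ≤ k) ∧
    ∀ x ∈ D, lo P x ≤ lo Q x ∧ lo Q x + Q.w ≤ lo P x + P.w

theorem Desc.refl (m : ℕ) (P : Strip) : Desc m P P :=
  ⟨Finset.Subset.refl _, fun _ h => Or.inl h, fun _ _ => ⟨le_rfl, le_rfl⟩⟩

theorem Desc.trans {m : ℕ} {A B C : Strip} (h1 : Desc m A B) (h2 : Desc m B C) : Desc m A C := by
  refine ⟨h2.1.trans h1.1, fun k hk => ?_, fun x hx => ?_⟩
  · rcases h1.2.1 k hk with h | h
    · exact h2.2.1 k h
    · exact Or.inr h
  · exact ⟨(h2.2.2 x hx).1.trans (h1.2.2 x hx).1, (h1.2.2 x hx).2.trans (h2.2.2 x hx).2⟩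

theorem Desc.w_le {m : ℕ} {Q P : Strip} (h : Desc m Q P) : Q.w ≤ P.w := by
  have := h.2.2 0 ⟨by norm_num, by norm_num⟩
  linarith [this.1, this.2]

/-- Expected proportion of a point left uncovered. -/
noncomputable def U (c : ℝ) (n : ℕ) (l : List Strip) (p : ℝ × ℝ) : ℝ :=
  (l.map fun P => 1 - f n ((c - p.1) / 2) * ic c P p).prod

theorem U_append (c : ℝ) (n : ℕ) (l l' : List Strip) (p : ℝ × ℝ) :
    U c n (l ++ l') p = U c n l p * U c n l' p := by
  simp [U]

theorem U_cons (c : ℝ) (n : ℕ) (P : Strip) (l : List Strip) (p : ℝ × ℝ) :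
    U c n (P :: l) p = (1 - f n ((c - p.1) / 2) * ic c P p) * U c n l p := by
  simp [U]

theorem U_nil (c : ℝ) (n : ℕ) (p : ℝ × ℝ) : U c n [] p = 1 := by
  simp [U]

theorem factor_mem {c : ℝ} (hc : c ∈ Icc (6 / 10 : ℝ) (7 / 10)) {p : ℝ × ℝ} (hp : p.1 ∈ D)
    (n : ℕ) (P : Strip) : 0 ≤ 1 - f n ((c - p.1) / 2) * ic c P p ∧
      1 - f n ((c - p.1) / 2) * ic c P p ≤ 1 := by
  unfold ic
  split_ifs with h
  · obtain ⟨a, b⟩ := f_mem (t := (c - p.1) / 2) (by linarith [h.1])
      (by linarith [hp.1, hc.2]) n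
    constructor <;> linarith
  · simp

theorem U_mem {c : ℝ} (hc : c ∈ Icc (6 / 10 : ℝ) (7 / 10)) {p : ℝ × ℝ} (hp : p.1 ∈ D)
    (n : ℕ) (l : List Strip) : 0 ≤ U c n l p ∧ U c n l p ≤ 1 := by
  induction l with
  | nil => simp [U]
  | cons P l ih =>
    rw [U_cons]
    have h := factor_mem hc hp n P
    exact ⟨mul_nonneg h.1 ih.1, mul_le_one₀ h.2 ih.1 ih.2⟩

theorem ic_measurable (c : ℝ) (P : Strip) : Measurable (ic c P) := by
  unfold ic lo
  have h1 : MeasurableSet {p : ℝ × ℝ | p.1 ≤ c} := measurableSet_le (by fun_prop) (by fun_prop)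
  have h2 : MeasurableSet {p : ℝ × ℝ | sl P.F * p.1 + P.b ≤ p.2} :=
    measurableSet_le (by fun_prop) (by fun_prop)
  have h3 : MeasurableSet {p : ℝ × ℝ | p.2 < sl P.F * p.1 + P.b + P.w} :=
    measurableSet_lt (by fun_prop) (by fun_prop)
  exact Measurable.ite (h1.inter (h2.inter h3)) measurable_const measurable_const

theorem fc_measurable (c : ℝ) (n : ℕ) : Measurable fun p : ℝ × ℝ => f n ((c - p.1) / 2) :=
  ((f_continuous n).comp (by fun_prop : Continuous fun p : ℝ × ℝ => (c - p.1) / 2)).measurable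

theorem U_measurable (c : ℝ) (n : ℕ) (l : List Strip) : Measurable (U c n l) := by
  induction l with
  | nil =>
    have : U c n [] = fun _ => 1 := funext fun p => U_nil c n p
    rw [this]; exact measurable_const
  | cons P l ih =>
    have : U c n (P :: l) = fun p => (1 - f n ((c - p.1) / 2) * ic c P p) * U c n l p :=
      funext fun p => U_cons c n P l p
    rw [this]
    exact (measurable_const.sub ((fc_measurable c n).mul (ic_measurable c P))).mul ih

/-- Cell width. -/
noncomputable def hh (k : ℕ) : ℝ := 4 * (1 / 3 : ℝ) ^ (k + 1)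

theorem hh_pos (k : ℕ) : 0 < hh k := by unfold hh; positivity

/-- Cells of the first kind. -/
noncomputable def ev (k : ℕ) (P : Strip) (θ : ℝ) (j : ℕ) : Strip :=
  ⟨P.F, P.b + 2 * hh k * (θ + j), hh k⟩

/-- Cells of the second kind. -/
noncomputable def od (k : ℕ) (P : Strip) (c θ : ℝ) (j : ℕ) : Strip :=
  ⟨insert k P.F, P.b + 2 * hh k * (θ + j) + hh k - hh k / 2 * c, hh k⟩

/-- Number of cells. -/
noncomputable def NN (k : ℕ) (P : Strip) : ℕ := ⌊(P.w - 3 * hh k) / (2 * hh k)⌋₊

/-- The refinement. -/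
noncomputable def lst (k : ℕ) (P : Strip) (c θ : ℝ) : List Strip :=
  (List.range (NN k P)).map (ev k P θ) ++ (List.range (NN k P)).map (od k P c θ)

theorem lo_ev (k : ℕ) (P : Strip) (θ : ℝ) (j : ℕ) (x : ℝ) :
    lo (ev k P θ j) x = lo P x + 2 * hh k * (θ + j) := by
  simp only [lo, ev]; ring

theorem lo_od {k : ℕ} {P : Strip} (hk : k ∉ P.F) (c θ : ℝ) (j : ℕ) (x : ℝ) :
    lo (od k P c θ j) x = lo P x + 2 * hh k * (θ + j) + hh k - hh k * ((c - x) / 2) := by
  simp only [lo, od, sl]
  rw [Finset.sum_insert hk]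
  unfold hh
  ring

theorem list_prod_range (g : ℕ → ℝ) (N : ℕ) :
    ((List.range N).map g).prod = ∏ j ∈ Finset.range N, g j := by
  induction N with
  | zero => simp
  | succ N ih => rw [List.range_succ, List.map_append, List.prod_append, ih,
      Finset.prod_range_succ]; simp

theorem NN_mul_le {k : ℕ} {P : Strip} (hN : NN k P ≠ 0) :
    2 * hh k * NN k P ≤ P.w - 3 * hh k := by
  have h := hh_pos k
  have h1 : 0 < (P.w - 3 * hh k) / (2 * hh k) := by
    by_contra hcon
    push Not at hcon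
    exact hN (Nat.floor_of_nonpos hcon)
  have h2 := Nat.floor_le h1.le
  unfold NN
  rw [le_div_iff₀ (by positivity)] at h2
  linarith

theorem lst_desc {k m : ℕ} {P : Strip} (hk : k ∉ P.F) (hkm : m ≤ k) {c θ : ℝ}
    (hc : c ∈ Icc (6 / 10 : ℝ) (7 / 10)) (hθ : θ ∈ Icc (0 : ℝ) 1) :
    ∀ Q ∈ lst k P c θ, Desc m Q P ∧ Q.w = hh k := by
  intro Q hQ
  have h := hh_pos k
  simp only [lst, List.mem_append, List.mem_map, List.mem_range] at hQ
  rcases hQ with ⟨j, hj, rfl⟩ | ⟨j, hj, rfl⟩
  · have hN := NN_mul_le (k := k) (P := P) (by omega)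
    have hj1 : (j : ℝ) + 1 ≤ NN k P := by exact_mod_cast hj
    refine ⟨⟨Finset.Subset.refl _, fun i hi => Or.inl hi, fun x hx => ?_⟩, rfl⟩
    rw [lo_ev]
    have h1 : 0 ≤ 2 * hh k * (θ + j) := by
      have := hθ.1
      positivity
    have h2 : 2 * hh k * (θ + j) ≤ 2 * hh k * NN k P :=
      mul_le_mul_of_nonneg_left (by linarith [hθ.2]) (by positivity)
    constructor
    · linarith
    · simp only [ev]
      linarith
  · have hN := NN_mul_le (k := k) (P := P) (by omega)
    have hj1 : (j : ℝ) + 1 ≤ NN k P := by exact_mod_cast hj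
    refine ⟨⟨Finset.subset_insert _ _, fun i hi => ?_, fun x hx => ?_⟩, rfl⟩
    · simp only [od, Finset.mem_insert] at hi
      rcases hi with rfl | hi
      · exact Or.inr hkm
      · exact Or.inl hi
    rw [lo_od hk]
    have h1 : 0 ≤ 2 * hh k * (θ + j) := by
      have := hθ.1
      positivity
    have h2 : 2 * hh k * (θ + j) ≤ 2 * hh k * NN k P :=
      mul_le_mul_of_nonneg_left (by linarith [hθ.2]) (by positivity)
    have h3 : hh k * ((c - x) / 2) ≤ hh k * 1 :=
      mul_le_mul_of_nonneg_left (by linarith [hc.2, hx.1]) h.le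
    have h4 : hh k * (-1) ≤ hh k * ((c - x) / 2) :=
      mul_le_mul_of_nonneg_left (by linarith [hc.1, hx.2]) h.le
    constructor
    · linarith
    · simp only [od]
      linarith

theorem U_lst {k : ℕ} {P : Strip} (c : ℝ) (n : ℕ) (θ : ℝ) (p : ℝ × ℝ) :
    U c n (lst k P c θ) p =
      (∏ j ∈ Finset.range (NN k P), (1 - f n ((c - p.1) / 2) * ic c (ev k P θ j) p)) *
      (∏ j ∈ Finset.range (NN k P), (1 - f n ((c - p.1) / 2) * ic c (od k P c θ j) p)) := by
  unfold lst
  rw [U_append]
  unfold U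
  rw [List.map_map, List.map_map]
  exact congrArg₂ _ (list_prod_range _ _) (list_prod_range _ _)

theorem ic_ev {k : ℕ} {P : Strip} {c : ℝ} {p : ℝ × ℝ} (hp : p.1 ≤ c) (θ : ℝ) (j : ℕ) :
    ic c (ev k P θ j) p =
      ind ((p.2 - lo P p.1) / (2 * hh k) - 1 / 2) ((p.2 - lo P p.1) / (2 * hh k)) (θ + j) := by
  have h := hh_pos k
  have h2 : (0 : ℝ) < 2 * hh k := by positivity
  unfold ic ind
  rw [lo_ev]
  have e1 : (p.1 ≤ c ∧ lo P p.1 + 2 * hh k * (θ + j) ≤ p.2 ∧
      p.2 < lo P p.1 + 2 * hh k * (θ + j) + (ev k P θ j).w) ↔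
      ((p.2 - lo P p.1) / (2 * hh k) - 1 / 2 < θ + j ∧
        θ + j ≤ (p.2 - lo P p.1) / (2 * hh k)) := by
    rw [le_div_iff₀ h2, sub_lt_iff_lt_add, div_lt_iff₀ h2]
    simp only [ev]
    constructor
    · rintro ⟨-, a, b⟩
      constructor <;> linarith
    · rintro ⟨a, b⟩
      refine ⟨hp, ?_, ?_⟩ <;> linarith
  simp only [e1]

theorem ic_od {k : ℕ} {P : Strip} (hk : k ∉ P.F) {c : ℝ} {p : ℝ × ℝ} (hp : p.1 ≤ c) (θ : ℝ)
    (j : ℕ) : ic c (od k P c θ j) p =
      ind ((p.2 - lo P p.1) / (2 * hh k) + (c - p.1) / 2 / 2 - 1)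
        ((p.2 - lo P p.1) / (2 * hh k) + (c - p.1) / 2 / 2 - 1 / 2) (θ + j) := by
  have h := hh_pos k
  have h2 : (0 : ℝ) < 2 * hh k := by positivity
  unfold ic ind
  rw [lo_od hk]
  have e0 : (p.2 - lo P p.1) / (2 * hh k) + (c - p.1) / 2 / 2 =
      (p.2 - lo P p.1 + hh k * ((c - p.1) / 2)) / (2 * hh k) := by
    field_simp
  have e1 : (p.1 ≤ c ∧ lo P p.1 + 2 * hh k * (θ + j) + hh k - hh k * ((c - p.1) / 2) ≤ p.2 ∧
      p.2 < lo P p.1 + 2 * hh k * (θ + j) + hh k - hh k * ((c - p.1) / 2) +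
        (od k P c θ j).w) ↔
      ((p.2 - lo P p.1) / (2 * hh k) + (c - p.1) / 2 / 2 - 1 < θ + j ∧
        θ + j ≤ (p.2 - lo P p.1) / (2 * hh k) + (c - p.1) / 2 / 2 - 1 / 2) := by
    rw [e0, sub_lt_iff_lt_add, div_lt_iff₀ h2, le_sub_iff_add_le, le_div_iff₀ h2]
    simp only [od]
    constructor
    · rintro ⟨-, a, b⟩
      constructor <;> linarith
    · rintro ⟨a, b⟩
      refine ⟨hp, ?_, ?_⟩ <;> linarith
  simp only [e1]

theorem hh_tendsto : Tendsto hh atTop (𝓝 0) := by
  have h1 := tendsto_pow_atTop_nhds_zero_of_lt_one (r := (1 / 3 : ℝ)) (by norm_num) (by norm_num)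
  have h2 := (h1.comp (tendsto_add_atTop_nat 1)).const_mul 4
  have e : hh = fun k => 4 * (1 / 3 : ℝ) ^ (k + 1) := rfl
  rw [e]
  simpa using h2

/-- The averaged refinement. -/
noncomputable def Avg (k : ℕ) (P : Strip) (c : ℝ) (n : ℕ) (p : ℝ × ℝ) : ℝ :=
  ∫ θ in (0 : ℝ)..1, U c n (lst k P c θ) p

theorem Avg_eventually {P : Strip} {c : ℝ} (hc : c ∈ Icc (6 / 10 : ℝ) (7 / 10)) (n : ℕ)
    {p : ℝ × ℝ} (hp : p.1 ∈ D) (h1 : p.2 ≠ lo P p.1) (h2 : p.2 ≠ lo P p.1 + P.w) :
    ∀ᶠ k in atTop, Avg k P c n p = 1 - f (n + 1) ((c - p.1) / 2) * ic c P p := by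
  have hF : ∀ᶠ k : ℕ in atTop, k ∉ P.F := by
    filter_upwards [eventually_gt_atTop (P.F.sup id)] with k hk hmem
    have := Finset.le_sup (f := id) hmem
    simp only [id] at this
    omega
  rcases lt_or_ge c p.1 with hcp | hcp
  · -- to the right of the focus nothing is counted
    filter_upwards with k
    have e1 : ∀ Q : Strip, ic c Q p = 0 := fun Q => by
      unfold ic
      rw [if_neg]
      intro h; linarith [h.1]
    unfold Avg
    simp [U_lst, e1]
  · set v := p.2 - lo P p.1 with hv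
    set t := (c - p.1) / 2 with ht
    have ht0 : 0 ≤ t := by linarith
    have ht1 : t ≤ 1 := by linarith [hp.1, hc.2]
    rcases lt_trichotomy v 0 with hv0 | hv0 | hv0
    · filter_upwards [hF] with k hk
      have hpos := hh_pos k
      have ha : v / (2 * hh k) < 0 := div_neg_of_neg_of_pos hv0 (by positivity)
      have e1 : ic c P p = 0 := by
        unfold ic
        rw [if_neg]
        intro h; linarith [h.2.1]
      have e2 : ∀ θ ∈ uIcc (0 : ℝ) 1, U c n (lst k P c θ) p = 1 := by
        intro θ hθ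
        rw [uIcc_of_le zero_le_one] at hθ
        rw [U_lst]
        rw [Finset.prod_eq_one, Finset.prod_eq_one, one_mul]
        · intro j _
          rw [ic_od hk hcp, ind, if_neg, mul_zero, sub_zero]
          intro h
          have := h.2
          have hj : (0 : ℝ) ≤ j := Nat.cast_nonneg j
          rw [← hv, ← ht] at this
          linarith [hθ.1]
        · intro j _
          rw [ic_ev hcp, ind, if_neg, mul_zero, sub_zero]
          intro h
          have := h.2
          have hj : (0 : ℝ) ≤ j := Nat.cast_nonneg j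
          rw [← hv] at this
          linarith [hθ.1]
      unfold Avg
      rw [intervalIntegral.integral_congr e2, e1]
      simp
    · exact absurd (by linarith) h1
    · rcases lt_trichotomy v P.w with hvw | hvw | hvw
      · -- interior points
        have hev1 : ∀ᶠ k in atTop, hh k ≤ v / 2 := hh_tendsto.eventually_le_const (by linarith)
        have hev2 : ∀ᶠ k in atTop, hh k ≤ (P.w - v) / 5 :=
          hh_tendsto.eventually_le_const (by linarith)
        filter_upwards [hF, hev1, hev2] with k hk hk1 hk2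
        have hpos := hh_pos k
        have h2pos : (0 : ℝ) < 2 * hh k := by positivity
        have e1 : ic c P p = 1 := by
          unfold ic
          rw [if_pos]
          exact ⟨hcp, by linarith, by linarith⟩
        have ha1 : 1 ≤ v / (2 * hh k) := by
          rw [le_div_iff₀ h2pos]; linarith
        have ha2 : v / (2 * hh k) ≤ NN k P := by
          have h5 := Nat.lt_floor_add_one ((P.w - 3 * hh k) / (2 * hh k))
          have h6 : v / (2 * hh k) ≤ (P.w - 3 * hh k) / (2 * hh k) - 1 := by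
            rw [div_sub_one h2pos.ne', div_le_div_iff_of_pos_right h2pos]
            linarith
          unfold NN
          linarith
        have := average (q := f n t) ha1 ha2 ht0 ht1
        have e2 : Avg k P c n p = ∫ θ in (0 : ℝ)..1,
            (∏ j ∈ Finset.range (NN k P), (1 - f n t * ind (v / (2 * hh k) - 1 / 2)
              (v / (2 * hh k)) (θ + j))) *
            (∏ j ∈ Finset.range (NN k P), (1 - f n t * ind (v / (2 * hh k) + t / 2 - 1)
              (v / (2 * hh k) + t / 2 - 1 / 2) (θ + j))) := by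
          unfold Avg
          refine intervalIntegral.integral_congr fun θ _ => ?_
          simp only [U_lst, ic_ev hcp, ic_od hk hcp]
          rfl
        rw [e2, this, e1]
        simp only [f]
        ring
      · exact absurd (by linarith) h2
      · filter_upwards [hF] with k hk
        have hpos := hh_pos k
        have h2pos : (0 : ℝ) < 2 * hh k := by positivity
        have e1 : ic c P p = 0 := by
          unfold ic
          rw [if_neg]
          intro h; linarith [h.2.2]
        have e2 : ∀ θ ∈ uIcc (0 : ℝ) 1, U c n (lst k P c θ) p = 1 := by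
          intro θ hθ
          rw [uIcc_of_le zero_le_one] at hθ
          have key : ∀ j ∈ Finset.range (NN k P), θ + j < v / (2 * hh k) - 1 := by
            intro j hj
            rw [Finset.mem_range] at hj
            have hN := NN_mul_le (k := k) (P := P) (by omega)
            have hj1 : (j : ℝ) + 1 ≤ NN k P := by exact_mod_cast hj
            have h7 : (NN k P : ℝ) ≤ (P.w - 3 * hh k) / (2 * hh k) := by
              rw [le_div_iff₀ h2pos]; linarith
            have h8 : (P.w - 3 * hh k) / (2 * hh k) < v / (2 * hh k) - 1 := by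
              rw [div_sub_one h2pos.ne', div_lt_div_iff_of_pos_right h2pos]
              linarith
            linarith [hθ.2]
          rw [U_lst]
          rw [Finset.prod_eq_one, Finset.prod_eq_one, one_mul]
          · intro j hj
            rw [ic_od hk hcp, ind, if_neg, mul_zero, sub_zero]
            intro h
            have h9 := h.1
            rw [← hv, ← ht] at h9
            linarith [key j hj]
          · intro j hj
            rw [ic_ev hcp, ind, if_neg, mul_zero, sub_zero]
            intro h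
            have h9 := h.1
            rw [← hv] at h9
            linarith [key j hj]
        unfold Avg
        rw [intervalIntegral.integral_congr e2, e1]
        simp

end Q195.CSeg
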