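import Pool.Agent.Q195.CSeg.KL

/-!
# The tree of strips
-/

open MeasureTheory Set Filter Topology

namespace Q195.CSeg

/-- Lists of strips with distinct slopes. -/
def Good (A : List Strip) (m : ℕ) : Prop :=
  (∀ P ∈ A, 0 < P.w) ∧ (∀ P ∈ A, ∀ k ∈ P.F, k < m) ∧ ∀ P ∈ A, ∀ P' ∈ A, P.F = P'.F → P = P'

/-- The relation between successive lists. -/
def Next (A : List Strip) (m : ℕ) (A' : List Strip) (m' : ℕ) (η δ : ℝ) : Prop :=
  m < m' ∧ (∀ Q ∈ A', ∃ P ∈ A, P.F = Q.F.filter (· < m) ∧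
    (∀ x ∈ D, lo P x ≤ lo Q x ∧ lo Q x + Q.w < lo P x + P.w) ∧ Q.w ≤ η) ∧
  volume {p : ℝ × ℝ | p.1 ∈ Icc (6 / 10 : ℝ) (65 / 100) ∧ p ∈ cov A ∧ p ∉ cov A'} ≤
    ENNReal.ofReal δ ∧
  volume {p : ℝ × ℝ | p.1 ∈ Icc (-1 / 2 : ℝ) (1 / 2) ∧ p ∈ cov A'} ≤ ENNReal.ofReal δ

theorem exists_next {A : List Strip} {m : ℕ} (hA : Good A m) {η δ : ℝ} (hη : 0 < η)
    (hδ : 0 < δ) : ∃ (A' : List Strip) (m' : ℕ), Good A' m' ∧ Next A m A' m' η δ := by
  classical
  set δ' : ℝ := δ / (A.length + 1) with hδ'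
  have hδ'0 : 0 < δ' := by positivity
  have hex : ∀ P : Strip, ∃ l : List Strip, P ∈ A →
      ((∀ Q ∈ l, Desc m Q P ∧ (∀ x ∈ D, lo Q x + Q.w < lo P x + P.w) ∧ 0 < Q.w ∧ Q.w ≤ η) ∧
      (∀ Q ∈ l, ∀ Q' ∈ l, Q.F = Q'.F → Q = Q') ∧
      volume {p : ℝ × ℝ | p.1 ∈ Icc (6 / 10 : ℝ) (65 / 100) ∧ p ∈ reg P ∧ p ∉ cov l} ≤
        ENNReal.ofReal δ' ∧
      volume {p : ℝ × ℝ | p.1 ∈ Icc (-1 / 2 : ℝ) (1 / 2) ∧ p ∈ cov l} ≤ ENNReal.ofReal δ') := by
    intro P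
    by_cases hP : P ∈ A
    · obtain ⟨l, hl⟩ := kl P (hA.1 P hP).le m hη hδ'0
      exact ⟨l, fun _ => hl⟩
    · exact ⟨[], fun h => absurd h hP⟩
  choose g hg using hex
  set A' := A.flatMap g with hA'
  have hmem : ∀ Q, Q ∈ A' ↔ ∃ P ∈ A, Q ∈ g P := fun Q => List.mem_flatMap
  have hfilter : ∀ P ∈ A, ∀ Q ∈ g P, P.F = Q.F.filter (· < m) := by
    intro P hP Q hQ
    have hd := ((hg P hP).1 Q hQ).1
    ext k
    rw [Finset.mem_filter]
    constructor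
    · intro hk
      exact ⟨hd.1 hk, hA.2.1 P hP k hk⟩
    · rintro ⟨hk, hkm⟩
      rcases hd.2.1 k hk with h | h
      · exact h
      · omega
  have hfin := List.finite_toSet A'
  have e1 : ∀ᶠ K : ℕ in atTop, ∀ Q ∈ {Q | Q ∈ A'}, ∀ k ∈ Q.F, k < K := by
    rw [Filter.eventually_all_finite hfin]
    intro Q _
    filter_upwards [eventually_gt_atTop (Q.F.sup id)] with K hK k hk
    have := Finset.le_sup (f := id) hk
    simp only [id] at this
    omega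
  obtain ⟨m', k1, k2⟩ := (e1.and (eventually_gt_atTop m)).exists
  refine ⟨A', m', ⟨?_, k1, ?_⟩, k2, ?_, ?_, ?_⟩
  · intro Q hQ
    obtain ⟨P, hP, hQP⟩ := (hmem Q).1 hQ
    exact ((hg P hP).1 Q hQP).2.2.1
  · intro Q hQ Q' hQ' hF
    obtain ⟨P, hP, hQP⟩ := (hmem Q).1 hQ
    obtain ⟨P', hP', hQP'⟩ := (hmem Q').1 hQ'
    have h1 := hfilter P hP Q hQP
    have h2 := hfilter P' hP' Q' hQP'
    have h3 : P = P' := hA.2.2 P hP P' hP' (by rw [h1, h2, hF])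
    subst h3
    exact (hg P hP).2.1 Q hQP Q' hQP' hF
  · intro Q hQ
    obtain ⟨P, hP, hQP⟩ := (hmem Q).1 hQ
    obtain ⟨d1, d2, d3, d4⟩ := (hg P hP).1 Q hQP
    exact ⟨P, hP, hfilter P hP Q hQP, fun x hx => ⟨(d1.2.2 x hx).1, d2 x hx⟩, d4⟩
  · have hsub : {p : ℝ × ℝ | p.1 ∈ Icc (6 / 10 : ℝ) (65 / 100) ∧ p ∈ cov A ∧ p ∉ cov A'} ⊆
        ⋃ i : Fin A.length, {p : ℝ × ℝ | p.1 ∈ Icc (6 / 10 : ℝ) (65 / 100) ∧ p ∈ reg A[i] ∧
          p ∉ cov (g A[i])} := by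
      rintro p ⟨h1, ⟨P, hP, hPp⟩, h3⟩
      obtain ⟨i, hi, rfl⟩ := List.getElem_of_mem hP
      rw [mem_iUnion]
      refine ⟨⟨i, hi⟩, h1, hPp, fun h => h3 ?_⟩
      obtain ⟨Q, hQ, hQp⟩ := h
      exact ⟨Q, (hmem Q).2 ⟨A[i], hP, hQ⟩, hQp⟩
    refine (measure_mono hsub).trans ((measure_iUnion_fintype_le _ _).trans ?_)
    have hb := fun i : Fin A.length => (hg A[i] (List.getElem_mem i.2)).2.2.1
    refine (Finset.sum_le_sum fun i _ => hb i).trans ?_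
    rw [Finset.sum_const, Finset.card_univ, Fintype.card_fin, nsmul_eq_mul,
      ← ENNReal.ofReal_natCast, ← ENNReal.ofReal_mul (by positivity)]
    refine ENNReal.ofReal_le_ofReal ?_
    rw [hδ', ← mul_div_assoc, div_le_iff₀ (by positivity)]
    nlinarith
  · have hsub : {p : ℝ × ℝ | p.1 ∈ Icc (-1 / 2 : ℝ) (1 / 2) ∧ p ∈ cov A'} ⊆
        ⋃ i : Fin A.length, {p : ℝ × ℝ | p.1 ∈ Icc (-1 / 2 : ℝ) (1 / 2) ∧
          p ∈ cov (g A[i])} := by
      rintro p ⟨h1, Q, hQ, hQp⟩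
      obtain ⟨P, hP, hQP⟩ := (hmem Q).1 hQ
      obtain ⟨i, hi, rfl⟩ := List.getElem_of_mem hP
      rw [mem_iUnion]
      exact ⟨⟨i, hi⟩, h1, Q, hQP, hQp⟩
    refine (measure_mono hsub).trans ((measure_iUnion_fintype_le _ _).trans ?_)
    have hb := fun i : Fin A.length => (hg A[i] (List.getElem_mem i.2)).2.2.2
    refine (Finset.sum_le_sum fun i _ => hb i).trans ?_
    rw [Finset.sum_const, Finset.card_univ, Fintype.card_fin, nsmul_eq_mul,
      ← ENNReal.ofReal_natCast, ← ENNReal.ofReal_mul (by positivity)]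
    refine ENNReal.ofReal_le_ofReal ?_
    rw [hδ', ← mul_div_assoc, div_le_iff₀ (by positivity)]
    nlinarith

/-- The starting strip. -/
noncomputable def P₀ : Strip := ⟨∅, 0, 1⟩

theorem exists_seq : ∃ (A : ℕ → List Strip) (m : ℕ → ℕ), A 0 = [P₀] ∧ (∀ n, Good (A n) (m n)) ∧
    ∀ n : ℕ, Next (A n) (m n) (A (n + 1)) (m (n + 1)) (1 / (n + 1)) (1 / 100 * (1 / 2) ^ n) := by
  have hex : ∀ (n : ℕ) (s : {s : List Strip × ℕ // Good s.1 s.2}),
      ∃ s' : {s : List Strip × ℕ // Good s.1 s.2}, Next s.1.1 s.1.2 s'.1.1 s'.1.2 (1 / (n + 1))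
        (1 / 100 * (1 / 2) ^ n) := by
    intro n s
    obtain ⟨A', m', h1, h2⟩ := exists_next s.2 (η := 1 / (n + 1)) (δ := 1 / 100 * (1 / 2) ^ n)
      (by positivity) (by positivity)
    exact ⟨⟨(A', m'), h1⟩, h2⟩
  choose nx hnx using hex
  have h0 : Good [P₀] 0 := by
    refine ⟨?_, ?_, ?_⟩
    · intro P hP
      rw [List.mem_singleton] at hP
      subst hP
      simp [P₀]
    · intro P hP
      rw [List.mem_singleton] at hP
      subst hP
      simp [P₀]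
    · intro P hP P' hP' _
      rw [List.mem_singleton] at hP hP'
      rw [hP, hP']
  set S : ℕ → {s : List Strip × ℕ // Good s.1 s.2} := fun n =>
    Nat.rec ⟨([P₀], 0), h0⟩ (fun n s => nx n s) n with hS
  exact ⟨fun n => (S n).1.1, fun n => (S n).1.2, rfl, fun n => (S n).2, fun n => hnx n (S n)⟩

/-- The digits of a binary sequence. -/
def dg (G : ℕ → Bool) (n : ℕ) : Fin 3 := if G n then 2 else 0

/-- The slope of a binary sequence. -/
noncomputable def slope (G : ℕ → Bool) : ℝ := Real.ofDigits (dg G)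

theorem dg_ne_one (G : ℕ → Bool) (n : ℕ) : dg G n ≠ 1 := by
  unfold dg
  split_ifs <;> decide

theorem slope_mem (G : ℕ → Bool) : slope G ∈ cantorSet :=
  ofDigits_zero_two_sequence_mem_cantorSet (dg_ne_one G)

theorem slope_injective {G G' : ℕ → Bool} (h : slope G = slope G') : G = G' := by
  have h1 := ofDigits_zero_two_sequence_unique (dg_ne_one G) (dg_ne_one G') h
  funext n
  have h2 := congrFun h1 n
  unfold dg at h2
  by_cases a : G n = true <;> by_cases b : G' n = true <;> simp_all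

/-- The initial segment of the set of a binary sequence. -/
def ini (G : ℕ → Bool) (m : ℕ) : Finset ℕ := (Finset.range m).filter (fun k => G k = true)

theorem slope_sub (G : ℕ → Bool) (m : ℕ) :
    |slope G - sl (ini G m)| ≤ (1 / 3 : ℝ) ^ m := by
  have h := Real.ofDigits_eq_sum_add_ofDigits (dg G) m
  have e : ∑ i ∈ Finset.range m, Real.ofDigitsTerm (dg G) i = sl (ini G m) := by
    unfold sl ini
    rw [Finset.sum_filter]
    refine Finset.sum_congr rfl fun i _ => ?_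
    unfold Real.ofDigitsTerm dg
    split_ifs
    · simp
    · simp
  have h1 := Real.ofDigits_nonneg (fun i => dg G (i + m))
  have h2 := Real.ofDigits_le_one (fun i => dg G (i + m))
  unfold slope
  rw [h, e, add_sub_cancel_left, abs_of_nonneg (by positivity)]
  have e3 : (((3 : ℕ) : ℝ) ^ m)⁻¹ = (1 / 3 : ℝ) ^ m := by
    rw [one_div, inv_pow]; norm_num
  rw [e3]
  exact mul_le_of_le_one_right (by positivity) h2

theorem slope_nonneg (G : ℕ → Bool) : 0 ≤ slope G := Real.ofDigits_nonneg _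

theorem slope_le_one (G : ℕ → Bool) : slope G ≤ 1 := Real.ofDigits_le_one _

end Q195.CSeg
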